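import Pool.Agent.Y715.T.Comb

/-!
# Laplacians with an additional vertex
-/

set_option autoImplicit false

open Finset

namespace Pool.Agent.E8helper20.CT3.Cmb

open Pool.Agent.Y715.T.Comb

variable {ι : Type*} [Fintype ι] [DecidableEq ι]

/-- the matrix with the additional vertex -/
def ax (a : ι → ι → ZMod 3) (t : ι → ZMod 3) : Option ι → Option ι → ZMod 3
  | none, _ => 0
  | some i, none => t i
  | some i, some j => a i j

/-- the weights -/
def bx : Option ι → ZMod 3
  | none => 1
  | some _ => 0

/-- the set with the additional vertex -/
def ins (S : Finset ι) : Finset (Option ι) := insert none (S.map Function.Embedding.some)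

/-- the determinants with the additional vertex -/
def DD (a : ι → ι → ZMod 3) (t : ι → ZMod 3) (S : Finset ι) : ZMod 3 := D (ax a t) bx (ins S)

omit [Fintype ι] [DecidableEq ι] in
lemma none_notMem (S : Finset ι) : (none : Option ι) ∉ S.map Function.Embedding.some := by
  simp

lemma ins_empty : ins (∅ : Finset ι) = {none} := by
  unfold ins
  simp

lemma ins_univ : ins (Finset.univ : Finset ι) = Finset.univ := by
  ext x
  unfold ins
  cases x <;> simp

lemma DD_empty (a : ι → ι → ZMod 3) (t : ι → ZMod 3) : DD a t ∅ = 1 := by
  unfold DD
  rw [ins_empty, D_one]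
  rfl

/-- the recursion -/
theorem DD_rec (a : ι → ι → ZMod 3) (t : ι → ZMod 3) (S : Finset ι) (hS : S.Nonempty) :
    ∑ T ∈ S.powerset, (-1) ^ T.card * (DD a t T * ∏ i ∈ S \ T, (t i + ∑ j ∈ T, a i j)) = 0 := by
  have hcard : 2 ≤ (ins S).card := by
    unfold ins
    rw [card_insert_of_notMem (none_notMem S), card_map]
    have := card_pos.2 hS
    omega
  have h := D_rec (ax a t) bx (ins S) hcard
  have h1 : (ins S).powerset = (insert none (S.map Function.Embedding.some)).powerset := rfl
  rw [h1, sum_powerset_insert (none_notMem S)] at h
  have h2 : ∑ T ∈ (S.map Function.Embedding.some).powerset,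
      (-1) ^ T.card * (D (ax a t) bx T * ∏ i ∈ ins S \ T, ∑ j ∈ T, ax a t i j) = 0 := by
    refine sum_eq_zero fun T hT => ?_
    have h3 : D (ax a t) bx T = 0 := by
      unfold D
      refine sum_eq_zero fun r hr => ?_
      rw [mem_powerset] at hT
      have h4 := hT hr
      rw [mem_map] at h4
      obtain ⟨i, -, rfl⟩ := h4
      show (0 : ZMod 3) * _ = 0
      rw [zero_mul]
    rw [h3, zero_mul, mul_zero]
  rw [h2, zero_add] at h
  have h5 : ∑ T ∈ (S.map Function.Embedding.some).powerset,
      (-1) ^ (insert none T).card * (D (ax a t) bx (insert none T) *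
        ∏ i ∈ ins S \ (insert none T), ∑ j ∈ insert none T, ax a t i j) =
      ∑ T ∈ S.powerset, -((-1) ^ T.card * (DD a t T * ∏ i ∈ S \ T, (t i + ∑ j ∈ T, a i j))) := by
    refine sum_nbij' (fun T => T.eraseNone) (fun T => T.map Function.Embedding.some) ?_ ?_ ?_ ?_ ?_
    · intro T hT
      rw [mem_powerset] at hT ⊢
      intro i hi
      rw [mem_eraseNone] at hi
      have := hT hi
      simpa using this
    · intro T hT
      rw [mem_powerset] at hT ⊢
      exact map_subset_map.2 hT
    · intro T hT
      rw [mem_powerset] at hT
      rw [map_some_eraseNone, erase_eq_of_notMem]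
      exact fun h => none_notMem S (hT h)
    · intro T _
      exact eraseNone_map_some T
    · intro T hT
      rw [mem_powerset] at hT
      have hn : none ∉ T := fun h => none_notMem S (hT h)
      obtain ⟨U, rfl⟩ : ∃ U : Finset ι, T = U.map Function.Embedding.some :=
        ⟨T.eraseNone, by rw [map_some_eraseNone, erase_eq_of_notMem hn]⟩
      have hUS : U ⊆ S := map_subset_map.1 hT
      rw [eraseNone_map_some, card_insert_of_notMem hn, card_map]
      have e1 : ins S \ insert none (U.map Function.Embedding.some) =
          (S \ U).map Function.Embedding.some := by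
        ext x
        unfold ins
        cases x <;> simp
      have e2 : ∀ i : ι, ∑ j ∈ insert none (U.map Function.Embedding.some),
          ax a t (some i) j = t i + ∑ j ∈ U, a i j := by
        intro i
        rw [sum_insert hn, sum_map]
        rfl
      rw [e1, prod_map]
      have e3 : ∏ i ∈ S \ U, ∑ j ∈ insert none (U.map Function.Embedding.some),
          ax a t (Function.Embedding.some i) j = ∏ i ∈ S \ U, (t i + ∑ j ∈ U, a i j) :=
        prod_congr rfl fun i _ => e2 i
      rw [e3]
      unfold DD ins
      ring
  rw [h5, sum_neg_distrib, neg_eq_zero] at h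
  exact h

/-- the determinant of the whole matrix -/
theorem DD_ne_iff (a : ι → ι → ZMod 3) (t : ι → ZMod 3) : DD a t Finset.univ ≠ 0 ↔
    ∀ v : ι → ZMod 3, (∀ i, ∑ j, a i j * (v i - v j) + t i * v i = 0) → ∀ i, v i = 0 := by
  have h1 : DD a t Finset.univ = (V (ax a t) Finset.univ Finset.univ none).det := by
    unfold DD D
    rw [ins_univ, Fintype.sum_option]
    have e : ∑ i : ι, bx (some i) * w (ax a t) Finset.univ (some i) = 0 :=
      sum_eq_zero fun i _ => by
        show (0 : ZMod 3) * _ = 0
        rw [zero_mul]
    rw [e, add_zero]
    show (1 : ZMod 3) * w (ax a t) Finset.univ none = _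
    rw [one_mul]
    rfl
  have key : ∀ u : Option ι → ZMod 3, u none = 0 → ∀ i : ι,
      (V (ax a t) Finset.univ Finset.univ none).mulVec u (some i) =
        ∑ j, a i j * (u (some i) - u (some j)) + t i * u (some i) := by
    intro u hu i
    rw [Matrix.mulVec, dotProduct]
    have h2 : ∀ j, V (ax a t) Finset.univ Finset.univ none (some i) j * u j =
        (if some i = j then (∑ l, (if l = some i then 0 else ax a t (some i) l)) * u (some i) else 0) -
          (if j = some i then 0 else ax a t (some i) j) * u j := by
      intro j
      unfold V
      rw [Matrix.of_apply, if_neg (by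
        rintro (h | h)
        · exact Option.some_ne_none i h
        · exact h (mem_univ _))]
      by_cases hj : some i = j
      · subst hj
        rw [if_pos rfl, if_pos rfl, if_pos rfl, zero_mul, sub_zero]
      · have hj' : ¬ j = some i := fun h => hj h.symm
        rw [if_neg hj, if_neg hj, if_pos (mem_univ j), if_neg hj']
        ring
    rw [sum_congr rfl fun j _ => h2 j, sum_sub_distrib, sum_ite_eq, if_pos (mem_univ _), sum_mul,
      ← sum_sub_distrib, Fintype.sum_option]
    have h3 : (if (none : Option ι) = some i then (0 : ZMod 3) else ax a t (some i) none) *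
        u (some i) - (if (none : Option ι) = some i then (0 : ZMod 3) else ax a t (some i) none) *
        u none = t i * u (some i) := by
      rw [if_neg (Option.some_ne_none i).symm, hu, mul_zero, sub_zero]
      rfl
    rw [h3, add_comm]
    congr 1
    refine sum_congr rfl fun j _ => ?_
    by_cases hj : some j = some i
    · rw [if_pos hj, hj]
      ring
    · rw [if_neg hj]
      show a i j * _ - a i j * _ = _
      ring
  have keyn : ∀ u : Option ι → ZMod 3,
      (V (ax a t) Finset.univ Finset.univ none).mulVec u none = u none := by
    intro u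
    rw [Matrix.mulVec, dotProduct, sum_eq_single none]
    · unfold V
      rw [Matrix.of_apply, if_pos (Or.inl rfl), if_pos rfl, one_mul]
    · intro j _ hj
      unfold V
      rw [Matrix.of_apply, if_pos (Or.inl rfl), if_neg hj.symm, zero_mul]
    · intro h
      exact absurd (mem_univ _) h
  rw [h1, Ne, ← Matrix.exists_mulVec_eq_zero_iff]
  push Not
  constructor
  · intro h v hv i
    by_contra hi
    refine h (fun x => x.elim 0 v) ?_ ?_
    · intro h0
      exact hi (congrFun h0 (some i))
    · funext x
      cases x with
      | none => rw [keyn]; rfl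
      | some i =>
        rw [key _ rfl]
        exact hv i
  · intro h u hu0 hu
    apply hu0
    have hn : u none = 0 := by
      rw [← keyn u, hu]
      rfl
    have h4 := h (fun i => u (some i)) (fun i => by
      rw [← key u hn i, hu]
      rfl)
    funext x
    cases x with
    | none => exact hn
    | some i => exact h4 i

end Pool.Agent.E8helper20.CT3.Cmb
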