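import Pool.Agent.E8helper20.CT3.Stm
import Pool.Agent.Y703.CT.AN1

/-!
# The cubic character of conductor nine
-/

set_option autoImplicit false

open Filter
open scoped Classical Topology PeriodPair

namespace Pool.Agent.E8helper20.CT3.Ch

open H667R3 Pool.Agent.W192.HK Pool.Agent.TH936.CM
open Pool.Agent.TH936.PU hiding v_int
open Pool.Agent.Y715.Dist Pool.Agent.Y715.Idn
open Pool.Agent.Y715.T.Lat Pool.Agent.Y696
open Pool.Agent.Y692.QS (Ei w nr toC)
open Pool.Agent.Y715.T.Rs (eq0)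
open Pool.Agent.Y703.CT (toC_w_add re_one im_one)
open Pool.Agent.Y703.CT.Ana (ej eo_j ej_u ej_ncop ej_prim)
open Pool.Agent.E8helper20.CT3 (yy)

lemma ex_y {α : Ei} (h : (3 : Ei) ∣ α - 1) : ∃ x y : ℤ, α = 1 + 3 * ⟨x, y⟩ ∧
    yy α = ((y : ℤ) : ZMod 3) := by
  obtain ⟨⟨x, y⟩, hq⟩ := h
  have e : α = 1 + 3 * ⟨x, y⟩ := by rw [← hq]; ring
  refine ⟨x, y, e, ?_⟩
  have h3 : (3 : Ei) = ⟨3, 0⟩ := rfl
  have hi : α.im = 3 * y := by
    rw [e, h3]
    simp [im_one]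
  unfold yy
  rw [hi]
  have e2 : 3 * y / 3 = y := by omega
  rw [e2]

lemma yy_one : yy 1 = 0 := by
  unfold yy
  rw [im_one]
  rfl

lemma yy_form (x y : ℤ) : yy (1 + 3 * (⟨x, y⟩ : Ei)) = ((y : ℤ) : ZMod 3) := by
  have h3 : (3 : Ei) = ⟨3, 0⟩ := rfl
  have hi : (1 + 3 * (⟨x, y⟩ : Ei)).im = 3 * y := by
    rw [h3]
    simp [im_one]
  unfold yy
  rw [hi]
  have e2 : 3 * y / 3 = y := by omega
  rw [e2]

lemma yy_mul {α β : Ei} (hα : (3 : Ei) ∣ α - 1) (hβ : (3 : Ei) ∣ β - 1) :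
    (3 : Ei) ∣ α * β - 1 ∧ yy (α * β) = yy α + yy β := by
  have h1 : (3 : Ei) ∣ α * β - 1 := by
    have e : α * β - 1 = (α - 1) * β + (β - 1) := by ring
    rw [e]
    exact dvd_add (Dvd.dvd.mul_right hα _) hβ
  refine ⟨h1, ?_⟩
  obtain ⟨x, y, e, hr⟩ := ex_y hα
  obtain ⟨x', y', e', hr'⟩ := ex_y hβ
  obtain ⟨X, Y, E, hR⟩ := ex_y h1
  rw [hr, hr', hR]
  have h2 : (⟨X, Y⟩ : Ei) = ⟨x, y⟩ + ⟨x', y'⟩ + 3 * (⟨x, y⟩ * ⟨x', y'⟩) := by
    have h3 : (3 : Ei) ≠ 0 := by decide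
    apply mul_left_cancel₀ h3
    have : α * β = 1 + 3 * ⟨X, Y⟩ := E
    rw [e, e'] at this
    linear_combination -this
  have h3 : (3 : Ei) = ⟨3, 0⟩ := rfl
  rw [h3] at h2
  have hy := congrArg QuadraticAlgebra.im h2
  simp at hy
  rw [hy, ← Int.cast_add, ← sub_eq_zero, ← Int.cast_sub, ZMod.intCast_zmod_eq_zero_iff_dvd]
  push_cast
  exact ⟨(x * y' + y * x' - y * y'), by ring⟩

lemma yy_congr {α β : Ei} (hα : (3 : Ei) ∣ α - 1) (h : (9 : Ei) ∣ α - β) : yy α = yy β := by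
  obtain ⟨⟨s, t⟩, hst⟩ := h
  have hβ : (3 : Ei) ∣ β - 1 := by
    obtain ⟨q, hq⟩ := hα
    exact ⟨q - 3 * ⟨s, t⟩, by linear_combination hq - hst⟩
  obtain ⟨x, y, e, hr⟩ := ex_y hα
  obtain ⟨x', y', e', hr'⟩ := ex_y hβ
  rw [hr, hr']
  have h2 : (⟨x, y⟩ : Ei) = ⟨x', y'⟩ + 3 * ⟨s, t⟩ := by
    have h3 : (3 : Ei) ≠ 0 := by decide
    apply mul_left_cancel₀ h3
    rw [e, e'] at hst
    linear_combination hst
  have h3 : (3 : Ei) = ⟨3, 0⟩ := rfl
  rw [h3] at h2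
  have hy := congrArg QuadraticAlgebra.im h2
  simp at hy
  rw [hy, ← sub_eq_zero, ← Int.cast_sub, ZMod.intCast_zmod_eq_zero_iff_dvd]
  exact ⟨t, by push_cast; ring⟩

lemma mem3 {x : eis} : x - 1 ∈ (sp 3 : Ideal eis) ↔ (3 : Ei) ∣ eq0.symm x - 1 := by
  have h := Pool.Agent.Y715.T.Ex.three_mem (α := eq0.symm x)
  rwa [RingEquiv.apply_symm_apply] at h

lemma mem9 {x y : eis} (h : x - y ∈ (sp 9 : Ideal eis)) : (9 : Ei) ∣ eq0.symm x - eq0.symm y := by
  obtain ⟨t, ht⟩ := Ideal.mem_span_singleton'.1 h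
  refine ⟨eq0.symm t, ?_⟩
  have h1 := congrArg eq0.symm ht
  rw [map_mul, map_sub, map_ofNat] at h1
  rw [← h1]
  ring

lemma nine_three {x : eis} (h : x ∈ (sp 9 : Ideal eis)) : x ∈ (sp 3 : Ideal eis) := by
  obtain ⟨t, ht⟩ := Ideal.mem_span_singleton'.1 h
  rw [Ideal.mem_span_singleton']
  exact ⟨t * 3, by rw [← ht]; ring⟩

lemma ex_un {x : eis} (h : IsCoprime x 3) : ∃ u : eisˣ, (u : eis) * x - 1 ∈ (sp 3 : Ideal eis) := by
  obtain ⟨v, hv, h1⟩ := cop_three h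
  obtain ⟨u, hu⟩ := hv
  refine ⟨u⁻¹, ?_⟩
  have h2 := (sp 3 : Ideal eis).mul_mem_left (↑u⁻¹ : eis) h1
  have e : (↑u⁻¹ : eis) * (x - v) = (↑u⁻¹ : eis) * x - 1 := by
    rw [mul_sub, ← hu, Units.inv_mul]
  rwa [e] at h2

lemma un_cop {x : eis} {u : eisˣ} (h : (u : eis) * x - 1 ∈ (sp 3 : Ideal eis)) : IsCoprime x 3 := by
  have h1 := cop_of_unit isUnit_one h
  exact h1.of_mul_left_right

lemma un_uniq {x : eis} {u v : eisˣ} (h : (u : eis) * x - 1 ∈ (sp 3 : Ideal eis))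
    (h' : (v : eis) * x - 1 ∈ (sp 3 : Ideal eis)) : u = v := by
  apply Units.ext
  refine unit_mod u.isUnit v.isUnit ?_
  have h1 := (sp 3 : Ideal eis).sub_mem ((sp 3 : Ideal eis).mul_mem_left (v : eis) h)
    ((sp 3 : Ideal eis).mul_mem_left (u : eis) h')
  have e : (v : eis) * ((u : eis) * x - 1) - (u : eis) * ((v : eis) * x - 1) = u - v := by ring
  rwa [e] at h1

/-- the character of conductor nine -/
noncomputable def th (x : eis) : ℂ :=
  if h : ∃ u : eisˣ, (u : eis) * x - 1 ∈ (sp 3 : Ideal eis) then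
    toC w ^ (yy (eq0.symm ((h.choose : eis) * x))).val else 0

lemma th_of {x : eis} {u : eisˣ} (h : (u : eis) * x - 1 ∈ (sp 3 : Ideal eis)) :
    th x = toC w ^ (yy (eq0.symm ((u : eis) * x))).val := by
  have h1 : ∃ u : eisˣ, (u : eis) * x - 1 ∈ (sp 3 : Ideal eis) := ⟨u, h⟩
  unfold th
  rw [dif_pos h1, un_uniq h1.choose_spec h]

lemma th_zero {x : eis} (h : ¬ IsCoprime x 3) : th x = 0 := by
  unfold th
  rw [dif_neg]
  rintro ⟨u, hu⟩
  exact h (un_cop hu)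

lemma th_prim {x : eis} (h : x - 1 ∈ (sp 3 : Ideal eis)) :
    th x = toC w ^ (yy (eq0.symm x)).val := by
  have h1 : ((1 : eisˣ) : eis) * x - 1 ∈ (sp 3 : Ideal eis) := by
    rw [Units.val_one, one_mul]
    exact h
  rw [th_of h1, Units.val_one, one_mul]

lemma th_mul (x y : eis) : th (x * y) = th x * th y := by
  by_cases hx : IsCoprime x 3
  · by_cases hy : IsCoprime y 3
    · obtain ⟨u, hu⟩ := ex_un hx
      obtain ⟨v, hv⟩ := ex_un hy
      have h1 := yy_mul (mem3.1 hu) (mem3.1 hv)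
      have h2 : ((u * v : eisˣ) : eis) * (x * y) - 1 ∈ (sp 3 : Ideal eis) := by
        rw [mem3]
        have e : eq0.symm (((u * v : eisˣ) : eis) * (x * y)) =
          eq0.symm ((u : eis) * x) * eq0.symm ((v : eis) * y) := by
          rw [← map_mul]
          congr 1
          push_cast
          ring
        rw [e]
        exact h1.1
      have e : eq0.symm (((u * v : eisˣ) : eis) * (x * y)) =
          eq0.symm ((u : eis) * x) * eq0.symm ((v : eis) * y) := by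
        rw [← map_mul]
        congr 1
        push_cast
        ring
      rw [th_of hu, th_of hv, th_of h2, e, h1.2, toC_w_add]
    · rw [th_zero hy, mul_zero, th_zero]
      exact fun h => hy h.of_mul_left_right
  · rw [th_zero hx, zero_mul, th_zero]
    exact fun h => hx h.of_mul_left_left

lemma th_per {x y : eis} (h : x - y ∈ (sp 9 : Ideal eis)) : th x = th y := by
  by_cases hx : IsCoprime x 3
  · obtain ⟨u, hu⟩ := ex_un hx
    have h9 := (sp 9 : Ideal eis).mul_mem_left (u : eis) h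
    have hy : (u : eis) * y - 1 ∈ (sp 3 : Ideal eis) := by
      have h1 := (sp 3 : Ideal eis).sub_mem hu (nine_three h9)
      have e : (u : eis) * x - 1 - (u : eis) * (x - y) = (u : eis) * y - 1 := by ring
      rwa [e] at h1
    rw [th_of hu, th_of hy, yy_congr (mem3.1 hu) (mem9 (by rwa [mul_sub] at h9))]
  · rw [th_zero hx, th_zero]
    intro hy
    apply hx
    obtain ⟨u, hu⟩ := ex_un hy
    have h9 := (sp 3 : Ideal eis).mul_mem_left (u : eis) (nine_three h)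
    have h1 := (sp 3 : Ideal eis).add_mem hu h9
    have e : (u : eis) * y - 1 + (u : eis) * (x - y) = (u : eis) * x - 1 := by ring
    rw [e] at h1
    exact un_cop h1

lemma th_unit (u : eisˣ) : th (u : eis) = 1 := by
  have h : ((u⁻¹ : eisˣ) : eis) * (u : eis) - 1 ∈ (sp 3 : Ideal eis) := by
    rw [Units.inv_mul, sub_self]
    exact Submodule.zero_mem _
  rw [th_of h, Units.inv_mul, map_one, yy_one, ZMod.val_zero, pow_zero]

lemma th_unit' {u : eis} (hu : IsUnit u) : th u = 1 := by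
  obtain ⟨v, rfl⟩ := hu
  exact th_unit v

lemma th_neg (x : eis) : th (-x) = th x := by
  have h := th_mul (-1) x
  rwa [th_unit' isUnit_one.neg, one_mul, neg_one_mul] at h

lemma w3 : toC w ^ 3 = 1 := Pool.Agent.Y715.T.Fin.toC_w_cube

lemma w_norm : ‖toC w‖ = 1 := Complex.norm_eq_one_of_pow_eq_one w3 (by norm_num)

lemma th_norm (x : eis) : ‖th x‖ ≤ 1 := by
  unfold th
  split_ifs
  · rw [norm_pow, w_norm, one_pow]
  · rw [norm_zero]
    exact zero_le_one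

lemma w_ne : toC w ≠ 0 := by
  intro h
  have h1 := w_norm
  rw [h, norm_zero] at h1
  norm_num at h1

lemma th_ne {x : eis} (h : IsCoprime x 3) : th x ≠ 0 := by
  obtain ⟨u, hu⟩ := ex_un h
  rw [th_of hu]
  exact pow_ne_zero _ w_ne

lemma th_cube {x : eis} (h : IsCoprime x 3) : th x ^ 3 = 1 := by
  obtain ⟨u, hu⟩ := ex_un h
  rw [th_of hu, ← pow_mul, mul_comm, pow_mul, w3, one_pow]

/-! ### the characters with the units -/

/-- the three characters -/
noncomputable def e9 (j : Fin 3) (x : eis) : ℂ := ej j x * th x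

lemma eo9 (j : Fin 3) : Eo (9 : eis) (e9 j) := by
  refine ⟨fun x y hxy => ?_, fun x y => ?_, fun x => ?_, fun x => ?_⟩
  · unfold e9
    rw [(eo_j j).per x y (nine_three hxy), th_per hxy]
  · unfold e9
    rw [(eo_j j).mul, th_mul]
    ring
  · unfold e9
    rw [(eo_j j).neg, th_neg]
    ring
  · unfold e9
    rw [norm_mul]
    exact mul_le_one₀ ((eo_j j).bd x) (norm_nonneg _) (th_norm x)

lemma e9_ncop (j : Fin 3) {x : eis} (hx : ¬ IsCoprime x 3) : e9 j x = 0 := by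
  unfold e9
  rw [ej_ncop j hx, zero_mul]

lemma e9_ut (j : Fin 3) {u : eis} (hu : IsUnit u) (t : eis) :
    e9 j (u * (1 + 3 * t)) = (u : ℂ) ^ (2 * (j : ℕ) + 1) * th (1 + 3 * t) := by
  unfold e9
  rw [(eo_j j).mul, th_mul, th_unit' hu, one_mul, ej_u j hu]
  have h : (1 + 3 * t) - 1 ∈ (sp 3 : Ideal eis) := by
    rw [Ideal.mem_span_singleton']
    exact ⟨t, by ring⟩
  rw [ej_prim j h, mul_one]

lemma e9_ne (j : Fin 3) {x : eis} (hx : IsCoprime x 3) : e9 j x ≠ 0 := by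
  obtain ⟨u, hu, h⟩ := cop_three hx
  unfold e9
  refine mul_ne_zero ?_ (th_ne hx)
  rw [(eo_j j).per _ _ h, ej_u j hu]
  exact pow_ne_zero _ (coe_ne hu.ne_zero)

lemma e9_prim (j : Fin 3) {x : eis} (h : x - 1 ∈ (sp 3 : Ideal eis)) : e9 j x = th x := by
  unfold e9
  rw [ej_prim j h, one_mul]

end Pool.Agent.E8helper20.CT3.Ch
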