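import Pool.Agent.E8helper20.CT3.Lim9
import Pool.Agent.E8helper20.CT3.Ds
import Pool.Agent.E8helper20.CT3.Cmb

/-!
# The `3`-adic valuation of the sums at level nine
-/

set_option autoImplicit false
set_option linter.unusedSectionVars false

open Filter
open scoped Topology PeriodPair

namespace Pool.Agent.E8helper20.CT3.An

open H667R3 Pool.Agent.W192.HK Pool.Agent.TH936.CM
open Pool.Agent.TH936.PU hiding v_int
open Pool.Agent.Y715.Dist Pool.Agent.Y715.Idn Pool.Agent.Y715.T.Lat Pool.Agent.Y696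
open Pool.Agent.Y715.Two (v_nat v_int v_unit v_mul_le_of)
open Pool.Agent.Y715.T.Three Pool.Agent.Y715.T.Cg
open Pool.Agent.Y703.CT.Ana (Fy PX PX_zero PX_le sum_PX)
open Pool.Agent.E8helper20.CT3.Ch Pool.Agent.E8helper20.CT3.Xi Pool.Agent.E8helper20.CT3.Ni
open Pool.Agent.E8helper20.CT3.Cmb

variable {Γ : Type*} [LinearOrderedCommGroupWithZero Γ] {v : Valuation ℂ Γ}
  {L : PeriodPair} {Ω : ℂ} {ι : Type*} [DecidableEq ι]

variable {π : ι → eis} {X : ι → eis → ℂ} {z : ℂ} {a : ι → ι → ZMod 3} {b t : ι → ZMod 3}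

variable [Fintype (eis ⧸ (sp 9 : Ideal eis))]

/-- the sum for the three characters -/
noncomputable def SQ (L : PeriodPair) (Ω : ℂ)
    (π : ι → eis) (X : ι → eis → ℂ) (T : Finset ι) : ℂ :=
  ∑ j : Fin 3, SP L Ω 9 (e9 j) (Ef9 L Ω j) π X T

lemma SQ_empty (hfin : ∀ q : eis, q ≠ 0 → Finite (eis ⧸ sp q)) :
    SQ L Ω π X ∅ = 6 * RR L Ω (Ω / 9) := by
  unfold SQ
  rw [Finset.sum_congr rfl fun j _ => SP_empty hfin, Fin.sum_univ_three]
  unfold Ef9
  rw [if_pos rfl, if_neg (by decide), if_neg (by decide)]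
  ring

/-- the normalized sums -/
noncomputable def sT (L : PeriodPair) (Ω : ℂ)
    (π : ι → eis) (X : ι → eis → ℂ) (z : ℂ) (T : Finset ι) : ℂ :=
  SQ L Ω π X T / (6 * RR L Ω (Ω / 9) * (1 - z) ^ T.card)

section est

variable (h3 : v 3 < 1) (hC : Cur L Ω)
  (hfin : ∀ q : eis, q ≠ 0 → Finite (eis ⧸ sp q)) (h : Fy v π X z a b) (hz : Zt v z)
  (hzl : v (1 - z) = v lam)
  (h3π : ∀ i, π i - 1 ∈ (sp 3 : Ideal eis))

include hC hfin h h3π in
/-- the identity -/
theorem idn (S : Finset ι) :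
    Sm (cc π S) (fun x => PX π X S x *
      (3 * (RR L Ω (Ω / 9 + Ω * x / cc π S) + RR L Ω (Ω / 9 - Ω * x / cc π S)))) =
      ∑ T ∈ S.powerset, (-1) ^ T.card *
        ((∏ i ∈ S \ T, ((π i : ℂ) * (th (π i))⁻¹ - XT X T (π i))) * SQ L Ω π X T) := by
  have hfπ : ∀ i, IsCoprime (9 : eis) (π i) := by
    intro i
    have e9 : (9 : eis) = 3 * 3 := by norm_num
    rw [e9]
    exact (h.three i).mul_left (h.three i)
  have he : ∀ j : Fin 3, ∀ i, e9 j (π i) = th (π i) := fun j i => e9_prim j (h3π i)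
  have hth : ∀ i, th (π i) ≠ 0 := fun i => th_ne ((h.three i).symm)
  have h4 : ∑ T ∈ S.powerset, (-1) ^ T.card *
        ((∏ i ∈ S \ T, ((π i : ℂ) * (th (π i))⁻¹ - XT X T (π i))) * SQ L Ω π X T) =
        ∑ j : Fin 3, ∑ T ∈ S.powerset, (-1) ^ T.card *
          ((∏ i ∈ S \ T, ((π i : ℂ) * (e9 j (π i))⁻¹ - XT X T (π i))) *
            SP L Ω 9 (e9 j) (Ef9 L Ω j) π X T) := by
    rw [Finset.sum_comm]
    refine Finset.sum_congr rfl fun T _ => ?_
    unfold SQ
    rw [Finset.mul_sum, Finset.mul_sum]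
    refine Finset.sum_congr rfl fun j _ => ?_
    rw [Finset.prod_congr rfl fun i _ => by rw [← he j i]]
  rw [h4, Finset.sum_congr rfl fun j _ => (Pool.Agent.E8helper20.CT3.Ds.main hC.lat hfin nine_ne
    h.toFm hfπ (eo9 j) (fun i => by rw [he j i]; exact hth i) (lim_e9 hC j) S).symm]
  unfold Sm
  rw [Finset.sum_comm]
  refine Finset.sum_congr rfl fun x _ => ?_
  beta_reduce
  rw [← Ph_tot hC (h.cc_ne S) (h.three_cc S) x, Finset.mul_sum]
  rfl

include h3 hC hfin h hz in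
/-- the estimate -/
theorem est {S : Finset ι} (hS : S.Nonempty) :
    v (Sm (cc π S) (fun x => PX π X S x *
      ((RR L Ω (Ω / 9 + Ω * x / cc π S) + RR L Ω (Ω / 9 - Ω * x / cc π S)) /
        (2 * RR L Ω (Ω / 9)) + 1))) < v (1 - z) ^ S.card := by
  classical
  have hc := h.cc_ne S
  have hct := h.cc_top hS
  have : Fintype (eis ⧸ sp (cc π S)) := @Fintype.ofFinite _ (hfin _ hc)
  rw [Sm_eq]
  have hz0 : v (1 - z) ≠ 0 := by
    rw [Ne, map_eq_zero]
    exact hz.ne
  have hpos : v (1 - z) ^ S.card ≠ 0 := pow_ne_zero _ hz0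
  refine v.map_sum_lt hpos fun q _ => ?_
  by_cases hq : IsCoprime q.out (cc π S)
  · have h6 := phi_small hC h3 hc (h.three_cc S) hct hfin hq
    rw [map_mul]
    calc v (PX π X S q.out) * v ((RR L Ω (Ω / 9 + Ω * q.out / cc π S) +
          RR L Ω (Ω / 9 - Ω * q.out / cc π S)) / (2 * RR L Ω (Ω / 9)) + 1) ≤
        v (1 - z) ^ S.card * v ((RR L Ω (Ω / 9 + Ω * q.out / cc π S) +
          RR L Ω (Ω / 9 - Ω * q.out / cc π S)) / (2 * RR L Ω (Ω / 9)) + 1) :=
          mul_le_mul' (PX_le hz h q.out) le_rfl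
      _ < v (1 - z) ^ S.card * 1 := mul_lt_mul_of_pos_left h6 (zero_lt_iff.2 hpos)
      _ = v (1 - z) ^ S.card := mul_one _
  · rw [PX_zero h hq, zero_mul, map_zero]
    exact zero_lt_iff.2 hpos

include h3 hC hfin h hz h3π in
/-- **The sums modulo the maximal ideal.** -/
theorem sT_cg [Fintype ι]
    (ht : ∀ i, ∃ n : ℕ, (th (π i))⁻¹ = z ^ n ∧ (n : ZMod 3) = -t i) (S : Finset ι) :
    Cg v (sT L Ω π X z S) (DD a t S) := by
  classical
  induction S using Finset.strongInduction with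
  | H S ih =>
  have hR0 := RR0_ne hC
  have hz1 := hz.ne
  have hE0 : (6 : ℂ) * RR L Ω (Ω / 9) ≠ 0 := mul_ne_zero (by norm_num) hR0
  by_cases hS : S = ∅
  · subst hS
    rw [DD_empty]
    unfold sT
    rw [SQ_empty hfin, Finset.card_empty, pow_zero, mul_one, div_self hE0]
    have := Pool.Agent.Y715.T.Cg.Cg.int h3 1
    simpa using this
  rw [← Ne, ← Finset.nonempty_iff_ne_empty] at hS
  have hvz : v (1 - z) ≠ 0 := by rwa [Ne, map_eq_zero]
  set m := S.card with hm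
  have hid := idn hC hfin h h3π S
  have hest := est h3 hC hfin h hz hS
  set N : ℂ := 6 * RR L Ω (Ω / 9) * (1 - z) ^ m with hN
  have hN0 : N ≠ 0 := mul_ne_zero hE0 (pow_ne_zero _ hz1)
  set B : ℂ := ∏ i ∈ S, ((Nat.card (eis ⧸ sp (π i)) : ℂ) - 1) with hB
  set R : ℂ := Sm (cc π S) (fun x => PX π X S x *
      ((RR L Ω (Ω / 9 + Ω * x / cc π S) + RR L Ω (Ω / 9 - Ω * x / cc π S)) /
        (2 * RR L Ω (Ω / 9)) + 1)) with hR
  -- the left side
  have hlhs : Sm (cc π S) (fun x => PX π X S x *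
      (3 * (RR L Ω (Ω / 9 + Ω * x / cc π S) + RR L Ω (Ω / 9 - Ω * x / cc π S)))) =
      6 * RR L Ω (Ω / 9) * (R - B) := by
    rw [hB, ← sum_PX hfin h S, hR]
    have e1 : Sm (cc π S) (fun x => PX π X S x *
      ((RR L Ω (Ω / 9 + Ω * x / cc π S) + RR L Ω (Ω / 9 - Ω * x / cc π S)) /
        (2 * RR L Ω (Ω / 9)) + 1)) - Sm (cc π S) (fun x => PX π X S x) =
        Sm (cc π S) (fun x => PX π X S x *
      ((RR L Ω (Ω / 9 + Ω * x / cc π S) + RR L Ω (Ω / 9 - Ω * x / cc π S)) /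
        (2 * RR L Ω (Ω / 9)))) := by
      unfold Sm
      rw [← Finset.sum_sub_distrib]
      exact Finset.sum_congr rfl fun x _ => by ring
    rw [e1, ← Sm_mul_left]
    refine Finset.sum_congr rfl fun x _ => ?_
    field_simp
    ring
  -- the terms
  set E : Finset ι → ℂ := fun T => (∏ i ∈ S \ T, ((π i : ℂ) * (th (π i))⁻¹ - XT X T (π i))) *
    SQ L Ω π X T / N with hE
  have hsum : ∑ T ∈ S.powerset, (-1) ^ T.card * E T = (R - B) / (1 - z) ^ m := by
    have h4 : ∑ T ∈ S.powerset, (-1) ^ T.card * E T = (∑ T ∈ S.powerset, (-1) ^ T.card *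
        ((∏ i ∈ S \ T, ((π i : ℂ) * (th (π i))⁻¹ - XT X T (π i))) * SQ L Ω π X T)) / N := by
      rw [Finset.sum_div]
      exact Finset.sum_congr rfl fun T _ => by rw [hE]; ring
    rw [h4, ← hid, hlhs, hN]
    field_simp
  have hsmall : v (∑ T ∈ S.powerset, (-1) ^ T.card * E T) < 1 := by
    rw [hsum, map_div₀, map_pow, div_lt_one₀ (zero_lt_iff.2 (pow_ne_zero _ hvz))]
    refine v.map_sub_lt hest ?_
    rw [hB, map_prod]
    have h4 : ∏ i ∈ S, v ((Nat.card (eis ⧸ sp (π i)) : ℂ) - 1) ≤ (v 3) ^ S.card :=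
      Finset.prod_le_pow_card _ _ _ fun i _ => h.card i
    refine h4.trans_lt ?_
    have hm0 : m ≠ 0 := by
      have := Finset.card_pos.2 hS
      omega
    rw [← hm]
    exact pow_lt_pow_left₀ hz.three zero_le hm0
  have hES : E S = sT L Ω π X z S := by
    rw [hE]
    show (∏ i ∈ S \ S, _) * _ / N = _
    unfold sT
    rw [Finset.sdiff_self, Finset.prod_empty, one_mul]
  -- the other terms
  have hET : ∀ T ∈ S.powerset.erase S, Cg v (E T)
      (DD a t T * ∏ i ∈ S \ T, (t i + ∑ j ∈ T, a i j)) := by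
    intro T hT
    rw [Finset.mem_erase, Finset.mem_powerset] at hT
    have hssub : T ⊂ S := Finset.ssubset_iff_subset_ne.2 ⟨hT.2, hT.1⟩
    have h4 := ih T hssub
    have h5 : (S \ T).card + T.card = m := by
      rw [Finset.card_sdiff_of_subset hT.2]
      have := Finset.card_le_card hT.2
      omega
    have h6 : E T = sT L Ω π X z T *
        ∏ i ∈ S \ T, (((π i : ℂ) * (th (π i))⁻¹ - XT X T (π i)) / (1 - z)) := by
      rw [hE]
      show (∏ i ∈ S \ T, _) * _ / N = _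
      unfold sT
      rw [Finset.prod_div_distrib, Finset.prod_const, hN, ← h5, pow_add]
      field_simp
    rw [h6]
    refine h4.mul h3 (Cg.prod h3 _ fun i hi => ?_)
    rw [Finset.mem_sdiff] at hi
    -- the quotient
    have h7 : ∀ j ∈ T, ∃ n : ℕ, X j (π i) = z ^ n ∧ (n : ZMod 3) = a i j := fun j hj =>
      h.cub i j fun hij => hi.2 (hij ▸ hj)
    choose! n hn1 hn2 using h7
    obtain ⟨k, hk1, hk2⟩ := ht i
    have h8 : XT X T (π i) = z ^ (∑ j ∈ T, n j) := by
      unfold XT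
      rw [← Finset.prod_pow_eq_pow_sum]
      exact Finset.prod_congr rfl fun j hj => hn1 j hj
    have h9 : ((π i : ℂ) * (th (π i))⁻¹ - XT X T (π i)) / (1 - z) =
        ((π i : ℂ) - 1) * z ^ k / (1 - z) + ((1 - z ^ (∑ j ∈ T, n j)) / (1 - z) +
          -((1 - z ^ k) / (1 - z))) := by
      rw [h8, hk1]
      ring
    rw [h9]
    have h10 : (t i + ∑ j ∈ T, a i j) = 0 + (((∑ j ∈ T, n j : ℕ) : ZMod 3) + -(k : ZMod 3)) := by
      rw [hk2]
      push_cast
      rw [Finset.sum_congr rfl hn2]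
      ring
    rw [h10]
    refine (Cg.zero ?_).add h3 ((Zt.quot h3 hz _).add h3 ((Zt.quot h3 hz _).neg h3))
    rw [map_div₀, map_mul]
    have h12 : 0 < v (1 - z) := zero_lt_iff.2 hvz
    rw [div_lt_one₀ h12]
    have h13 : v (z ^ k) ≤ 1 := by
      have h14 := hz.pow_le k
      have e : z ^ k = 1 - (1 - z ^ k) := by ring
      rw [e]
      exact v.map_sub_le (by rw [map_one]) (h14.trans hz.lt.le)
    calc v ((π i : ℂ) - 1) * v (z ^ k) ≤ v 3 * 1 := mul_le_mul' (h.lin i) h13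
      _ = v 3 := mul_one _
      _ < v (1 - z) := hz.three
  -- conclusion
  have hSmem : S ∈ S.powerset := Finset.mem_powerset_self S
  have hsplit := Finset.add_sum_erase S.powerset (fun T => (-1) ^ T.card * E T) hSmem
  have hrest : Cg v (∑ T ∈ S.powerset.erase S, (-1) ^ T.card * E T)
      (-((-1) ^ S.card * DD a t S)) := by
    have h4 : -((-1) ^ S.card * DD a t S) = ∑ T ∈ S.powerset.erase S, (-1) ^ T.card *
        (DD a t T * ∏ i ∈ S \ T, (t i + ∑ j ∈ T, a i j)) := by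
      have h6 := DD_rec a t S hS
      rw [← Finset.add_sum_erase _ _ hSmem, Finset.sdiff_self, Finset.prod_empty, mul_one] at h6
      linear_combination -h6
    rw [h4]
    exact Cg.sum h3 _ fun T hT => Cg.sign h3 (hET T hT) _
  have hES2 : Cg v ((-1) ^ S.card * E S) ((-1) ^ S.card * DD a t S) := by
    have h4 : (-1) ^ S.card * E S = (∑ T ∈ S.powerset, (-1) ^ T.card * E T) -
        ∑ T ∈ S.powerset.erase S, (-1) ^ T.card * E T := by
      rw [← hsplit]
      ring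
    rw [h4]
    have h5 := hrest.neg h3
    rw [neg_neg] at h5
    refine Cg.of_sub (t := -(∑ T ∈ S.powerset.erase S, (-1) ^ T.card * E T)) ?_ h5
    rw [sub_neg_eq_add, sub_add_cancel]
    exact hsmall
  have h4 := hES2.sign h3 S.card
  rw [← mul_assoc, ← mul_pow, neg_one_mul, neg_neg, one_pow, one_mul, hES, ← mul_assoc,
    ← mul_pow, neg_one_mul, neg_neg, one_pow, one_mul] at h4
  exact h4

end est

end Pool.Agent.E8helper20.CT3.An
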