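import Pool.Agent.Y715.T.Lat

/-!
# Translation formulas on the hexagonal lattice with `g₃ = -1`
-/

set_option autoImplicit false

open Filter
open scoped Topology PeriodPair

namespace Pool.Agent.E8helper20.CT3.Xi

open H667R3 Pool.Agent.W192.HK Pool.Agent.TH936.CM Pool.Agent.TH936.PU
open Pool.Agent.Y715.T.Lat Pool.Agent.Y715.T.Three Pool.Agent.Y696

variable {L : PeriodPair} {Ω : ℂ}

/-- the product of the two lines -/
lemma GG (hC : Cur L Ω) {T z : ℂ} (hT : 2 * T ∉ L.lattice)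
    (hX : ℘[L] T ^ 3 = -1) (hz : z ∉ L.lattice) :
    (℘'[L] z - ℘'[L] T * (1 + 2 * ℘[L] T ^ 2 * ℘[L] z)) *
      (℘'[L] z + ℘'[L] T * (1 + 2 * ℘[L] T ^ 2 * ℘[L] z)) = 4 * (℘[L] z - ℘[L] T) ^ 3 := by
  have hT0 := two_mul_notMem_of L hT
  have hy := hC.ode hz
  have hY : ℘'[L] T ^ 2 = -3 := by rw [hC.ode hT0, hX]; norm_num
  set x := ℘[L] z
  set y := ℘'[L] z
  set X0 := ℘[L] T
  set Y0 := ℘'[L] T
  linear_combination hy + (-4*X0^4*x^2 - 4*X0^2*x - 1)*hY + (12*X0*x^2 + 4)*hX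

/-- translation by a point of order three with `x ^ 3 = -1` -/
theorem add_three (hC : Cur L Ω) {T z : ℂ} (hT : 2 * T ∉ L.lattice)
    (hX : ℘[L] T ^ 3 = -1) (hz : z ∉ L.lattice) (h1 : T + z ∉ L.lattice) (h2 : T - z ∉ L.lattice) :
    ℘[L] (T + z) * (℘'[L] z - ℘'[L] T * (1 + 2 * ℘[L] T ^ 2 * ℘[L] z)) =
      ℘[L] T * (℘'[L] z + ℘'[L] T) ∧
    (℘'[L] (T + z) + ℘'[L] T) * (℘'[L] z - ℘'[L] T * (1 + 2 * ℘[L] T ^ 2 * ℘[L] z)) =
      2 * ℘'[L] T * (℘'[L] z - ℘'[L] T) := by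
  have hT0 := two_mul_notMem_of L hT
  have hy := hC.ode hz
  have hY : ℘'[L] T ^ 2 = -3 := by rw [hC.ode hT0, hX]; norm_num
  have h3 := wp_sub_ne hT0 hz h1 h2
  have a1 := wp_add L hT hz h1 h2
  have a2 := wp'_add L hT hz h1 h2
  rw [hC.g2] at a1 a2
  set x := ℘[L] z
  set y := ℘'[L] z
  set X0 := ℘[L] T
  set Y0 := ℘'[L] T
  have hd : X0 - x ≠ 0 := h3
  have hd2 : 2 * (X0 - x) ^ 2 ≠ 0 := mul_ne_zero two_ne_zero (pow_ne_zero _ hd)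
  have e1 : 2 * (X0 - x) ^ 2 * ℘[L] (T + z) = X0 * (2 * (X0 - x) ^ 2) -
      ((6 * X0 ^ 2) * (X0 - x) - (Y0 - y) * Y0) := by
    rw [a1]
    field_simp
    ring
  have e2 : (2 * (X0 - x) ^ 2) ^ 2 * ℘'[L] (T + z) = Y0 * (2 * (X0 - x) ^ 2) ^ 2 -
      (((12 * X0 * Y0) * (X0 - x) + (6 * X0 ^ 2) * Y0 -
        ((6 * X0 ^ 2) * Y0 + (Y0 - y) * (6 * X0 ^ 2))) * (2 * (X0 - x) ^ 2) -
        ((6 * X0 ^ 2) * (X0 - x) - (Y0 - y) * Y0) * (2 * (2 * (X0 - x) * Y0))) := by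
    rw [a2]
    field_simp
    ring
  set X := ℘[L] (T + z)
  set Y := ℘'[L] (T + z)
  constructor
  · apply mul_left_cancel₀ hd2
    linear_combination (y - Y0 * (1 + 2 * X0 ^ 2 * x)) * e1 + (-Y0)*hy + (-2*X0^2*Y0*x + 2*X0^2*x*y - Y0 + 2*y)*hY + (-4*X0*Y0*x^2 + 8*X0^2*Y0*x - 4*Y0*x^3 + 2*Y0 - 6*y)*hX
  · apply mul_left_cancel₀ (pow_ne_zero 2 hd2)
    linear_combination (y - Y0 * (1 + 2 * X0 ^ 2 * x)) * e2 + (-12*X0^2*x^2 + 24*X0^3*x - 12*X0^4 + 4*X0*Y0^2 - 4*Y0^2*x)*hy + (-16*X0^2*x^5 + 16*X0^3*x^4 - 24*X0^4*x^3 + 64*X0^5*x^2 - 40*X0^6*x + 8*X0^2*Y0*x^2*y - 8*X0^2*Y0^2*x^2 - 8*X0^3*Y0*x*y + 8*X0^3*Y0^2*x - 8*X0*x^3 + 60*X0^2*x^2 - 24*X0^3*x - 12*X0^4 - 16*x^4 - 8*X0*Y0*y + 4*X0*Y0^2 + 8*Y0*x*y - 4*Y0^2*x - 8*X0 + 8*x)*hY + (24*X0*Y0*x^3*y - 48*X0^2*Y0*x^2*y + 24*X0^3*Y0*x*y + 24*X0*x^3 - 192*X0^2*x^2 + 120*X0^3*x + 48*x^4 + 24*X0*Y0*y - 24*Y0*x*y + 24*X0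 - 24*x)*hX

/-- translation by a point of order three with `x = 0` -/
theorem add_zero' (hC : Cur L Ω) {T z : ℂ} (hT : 2 * T ∉ L.lattice)
    (hX : ℘[L] T = 0) (hz : z ∉ L.lattice) (h1 : T + z ∉ L.lattice) (h2 : T - z ∉ L.lattice) :
    2 * ℘[L] z * ℘'[L] (T + z) = -(℘'[L] z - 3 * ℘'[L] T) * ℘[L] (T + z) := by
  have hT0 := two_mul_notMem_of L hT
  have hy := hC.ode hz
  have hY : ℘'[L] T ^ 2 = 1 := by rw [hC.ode hT0, hX]; norm_num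
  have h3 := wp_sub_ne hT0 hz h1 h2
  have a1 := wp_add L hT hz h1 h2
  have a2 := wp'_add L hT hz h1 h2
  rw [hC.g2, hX] at a1 a2
  rw [hX] at h3
  set x := ℘[L] z
  set y := ℘'[L] z
  set Y0 := ℘'[L] T
  have hx : x ≠ 0 := by
    intro h
    apply h3
    rw [h, sub_zero]
  have hx2 : (0 - x) ≠ 0 := by
    rw [zero_sub]
    exact neg_ne_zero.2 hx
  have e1 : 2 * x ^ 2 * ℘[L] (T + z) = (Y0 - y) * Y0 := by
    rw [a1]
    field_simp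
    ring
  have e2 : 4 * x ^ 4 * ℘'[L] (T + z) = 4 * x ^ 4 * Y0 + 4 * x * (Y0 - y) * Y0 ^ 2 := by
    rw [a2]
    field_simp
    ring
  have h4 : 4 * x ^ 4 ≠ 0 := mul_ne_zero (by norm_num) (pow_ne_zero _ hx)
  apply mul_left_cancel₀ h4
  linear_combination 2 * x * e2 + (y - 3 * Y0) * 2 * x ^ 2 * e1 + (-2*Y0*x^2)*hy + (2*Y0*x^2)*hY

/-- multiplication by the square root of `-3`, the derivative -/
theorem dwp_la (hC : Cur L Ω) {u : ℂ} (hu : 2 * u ∉ L.lattice) (hl : lam * u ∉ L.lattice) :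
    9 * ℘[L] u ^ 3 * ℘'[L] (lam * u) = lam * ℘'[L] u * (℘[L] u ^ 3 - 2) := by
  have hu0 := two_mul_notMem_of L hu
  have hou : IsUnit omr := omr_unit
  have hou2 : IsUnit (omr ^ 2) := hou.pow 2
  have z1 : 2 * (om * u) ∉ L.lattice := by
    have e : 2 * (om * u) = (omr : eis) * (2 * u) := by rw [omr_coe]; ring
    rw [e, lat_unit hC.lat hou]
    exact hu
  have z2 : -(om ^ 2 * u) ∉ L.lattice := by
    rw [neg_mem_iff]
    have e : om ^ 2 * u = ((omr ^ 2 : eis) : ℂ) * u := by push_cast; rw [omr_coe]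
    rw [e, lat_unit hC.lat hou2]
    exact hu0
  have elam : lam = om - om ^ 2 := by
    rw [← la_coe, la_eq]
    push_cast
    rw [omr_coe]
  have e3 : om * u + -(om ^ 2 * u) = lam * u := by rw [elam]; ring
  have e4 : om * u - -(om ^ 2 * u) = -u := by linear_combination u * om_sq
  have h1 : om * u + -(om ^ 2 * u) ∉ L.lattice := by rwa [e3]
  have h2 : om * u - -(om ^ 2 * u) ∉ L.lattice := by rwa [e4, neg_mem_iff]
  have h4 := wp'_add L z1 z2 h1 h2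
  have h3 := wp_sub_ne (two_mul_notMem_of L z1) z2 h1 h2
  have i1 : (om ^ 2)⁻¹ = om :=
    (eq_inv_of_mul_eq_one_left (by linear_combination om_cube)).symm
  have i2 : (om ^ 3)⁻¹ = 1 := by rw [om_cube, inv_one]
  have w1 : ℘[L] (om * u) = om * ℘[L] u := by
    have := wp_unit hC.lat hou u
    rwa [omr_coe, i1] at this
  have w1' : ℘'[L] (om * u) = ℘'[L] u := by
    have := dwp_unit hC.lat hou u
    rwa [omr_coe, i2, one_mul] at this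
  have w2 : ℘[L] (-(om ^ 2 * u)) = om ^ 2 * ℘[L] u := by
    rw [L.weierstrassP_neg]
    have := wp_unit hC.lat hou2 u
    push_cast at this
    rw [omr_coe] at this
    rw [this]
    have i3 : ((om ^ 2) ^ 2)⁻¹ = om ^ 2 :=
      (eq_inv_of_mul_eq_one_left (by linear_combination (om ^ 3 + 1) * om_cube)).symm
    rw [i3]
  have w2' : ℘'[L] (-(om ^ 2 * u)) = -℘'[L] u := by
    rw [L.derivWeierstrassP_neg]
    have := dwp_unit hC.lat hou2 u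
    push_cast at this
    rw [omr_coe] at this
    rw [this]
    have i3 : ((om ^ 2) ^ 3)⁻¹ = 1 := by
      rw [← pow_mul, mul_comm, pow_mul, om_cube, one_pow, inv_one]
    rw [i3, one_mul]
  rw [e3, w1, w1', w2, w2', hC.g2] at h4
  rw [w1, w2] at h3
  have hy := hC.ode hu0
  have hs := om_sq
  set x := ℘[L] u
  set y := ℘'[L] u
  set Y := ℘'[L] (lam * u)
  have hx : x ≠ 0 := by
    intro h
    apply h3
    rw [h]
    ring
  have hd2 : 2 * (om * x - om ^ 2 * x) ^ 2 ≠ 0 := mul_ne_zero two_ne_zero (pow_ne_zero _ h3)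
  have e5 : (2 * (om * x - om ^ 2 * x) ^ 2) ^ 2 * Y = y * (2 * (om * x - om ^ 2 * x) ^ 2) ^ 2 -
      (((12 * (om * x) * y) * (om * x - om ^ 2 * x) + (6 * (om * x) ^ 2) * y -
        ((6 * (om * x) ^ 2) * y + (y - -y) * (6 * (om * x) ^ 2))) *
          (2 * (om * x - om ^ 2 * x) ^ 2) -
        ((6 * (om * x) ^ 2) * (om * x - om ^ 2 * x) - (y - -y) * y) *
          (2 * (2 * (om * x - om ^ 2 * x) * y))) := by
    have hZ := div_mul_cancel₀ (((12 * (om * x) * y) * (om * x - om ^ 2 * x) +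
        (6 * (om * x) ^ 2 - 0 / 2) * y -
        ((6 * (om * x) ^ 2 - 0 / 2) * y + (y - -y) * (6 * (om * x) ^ 2 - 0 / 2))) *
          (2 * (om * x - om ^ 2 * x) ^ 2) -
        ((6 * (om * x) ^ 2 - 0 / 2) * (om * x - om ^ 2 * x) - (y - -y) * y) *
          (2 * (2 * (om * x - om ^ 2 * x) * y))) (pow_ne_zero 2 hd2)
    rw [h4]
    linear_combination (-1 : ℂ) * hZ
  have e6 : (2 * (om * x - om ^ 2 * x) ^ 2) ^ 2 = 36 * x ^ 4 := by
    linear_combination (4*om^6*x^4 - 20*om^5*x^4 + 40*om^4*x^4 - 36*om^3*x^4 + 36*om*x^4 - 36*x^4)*hs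
  rw [elam]
  have h4x : 4 * x ≠ 0 := mul_ne_zero (by norm_num) hx
  apply mul_left_cancel₀ h4x
  linear_combination e5 - Y * e6 + (4*om^6*x^4*y + 4*om^5*x^4*y - 8*om^4*x^4*y - 36*om^3*x^4*y + 72*om^2*x^4*y - 36*om*x^4*y - 32*x^4*y + 8*x*y^3 - 8*x*y)*hs + (-16*om*x*y - 8*x*y)*hy

end Pool.Agent.E8helper20.CT3.Xi
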