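import Pool.Agent.E8helper20.CT3.Chr
import Pool.Agent.Y715.CT.AN1b

/-!
# The Hecke characters of level nine
-/

set_option autoImplicit false
set_option linter.unusedSectionVars false

open scoped Classical

namespace Pool.Agent.E8helper20.CT3.Hk

open Pool.Agent.Y692.QS (Ei w nr toC)
open Pool.Agent.Y703.CT
open Pool.Agent.W192.HK
open Pool.Agent.Y715.Idn Pool.Agent.Y696
open Pool.Agent.Y715.T.Rs (eq0)
open Pool.Agent.Y715.T.Lat (la la_sq ez mem_three ez_one)
open Pool.Agent.Y703.CT.Ana (ej eo_j ej_u ej_ncop ej_prim)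
open Pool.Agent.Y715.CT.Hec (cP XX X_mul X_per X_ne_iff X_cube nd_unit X_one ex_j unitG X_ne_cop
  cP_ne cop3 prime_la three_eq cop_la w_ne)
open Pool.Agent.E8helper20.CT3 (yy)
open Pool.Agent.E8helper20.CT3.Ch (e9 eo9 e9_ncop e9_ne e9_prim th_unit' th_prim th_per)

variable {J : Type} [Fintype J] {π : J → Ei} {e : J → ZMod 3}

/-! ### the modulus -/

lemma nine_eq : (9 : eis) = la * (-(3 * la)) := by
  have h := la_sq
  linear_combination (3 : eis) * h

lemma nine_ne : (9 : eis) ≠ 0 := by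
  have e9 : (9 : eis) = 3 * 3 := by norm_num
  rw [e9]
  exact mul_ne_zero Pool.Agent.Y696.three_ne Pool.Agent.Y696.three_ne

lemma nine_la {ρ : eis} (hρ : Prime ρ) (h : ρ ∣ 9) : ρ ∣ la := by
  have h3 : ρ ∣ 3 := by
    have e9 : (9 : eis) = 3 * 3 := by norm_num
    rw [e9] at h
    rcases hρ.dvd_or_dvd h with h | h <;> exact h
  rw [three_eq, dvd_neg] at h3
  rcases hρ.dvd_or_dvd h3 with h | h <;> exact h

lemma nine_cop {α : eis} : IsCoprime α 9 ↔ IsCoprime α 3 := by
  have e9 : (9 : eis) = 3 * 3 := by norm_num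
  rw [e9, IsCoprime.mul_right_iff, and_self]

lemma e9_one (j : Fin 3) : e9 j 1 = 1 := by
  rw [e9_prim j (by rw [sub_self]; exact Submodule.zero_mem _), th_unit' isUnit_one]

lemma e9_mm {j : Fin 3} {α : eis} (h : α - 1 ∈ (sp 9 : Ideal eis)) : e9 j α = 1 := by
  rw [(eo9 j).per _ _ h, e9_one]

/-- the value at an element of the form `1 + 3 lam` -/
lemma th_la {α : eis} (h : α - (1 + 3 * la) ∈ (sp 9 : Ideal eis)) (j : Fin 3) :
    e9 j α ≠ 1 := by
  have h1 : (1 + 3 * la) - 1 ∈ (sp 3 : Ideal eis) := by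
    rw [Ideal.mem_span_singleton']
    exact ⟨la, by ring⟩
  rw [(eo9 j).per _ _ h, e9_prim j h1, th_prim h1]
  have e1 : eq0.symm (1 + 3 * la) = (1 + 3 * (⟨1, 2⟩ : Ei)) := by
    rw [RingEquiv.symm_apply_eq]
    apply Subtype.ext
    rw [map_add, map_mul, map_one, map_ofNat]
    push_cast
    rw [Pool.Agent.Y715.T.Rs.eq0_coe, Pool.Agent.Y703.CT.toC_eq']
    unfold la
    rw [Pool.Agent.Y715.T.Lat.ez_coe]
  rw [e1, Pool.Agent.E8helper20.CT3.Ch.yy_form]
  intro h2
  have h4 : toC w ^ (((2 : ℤ) : ZMod 3)).val = toC w ^ 0 := by rw [h2, pow_zero]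
  have h5 := Pool.Agent.Y715.T.Fin.w_pow_mod h4
  exact absurd h5 (by decide)

/-! ### the Hecke character -/

/-- the function on the elements -/
noncomputable def gg (π : J → Ei) (e : J → ZMod 3) (j : Fin 3) (α : eis) : ℂ :=
  (α : ℂ) * (starRingEnd ℂ) (e9 j α * XX π e α)

/-- the Hecke character -/
noncomputable def th (π : J → Ei) (e : J → ZMod 3) (j : Fin 3) (I : Ideal eis) : ℂ :=
  gg π e j (Submodule.IsPrincipal.generator I)

section T

variable (h : Dt π e) {j : Fin 3} (hj : om ^ (2 * (j : ℕ)) * XX π e omr = 1)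

include h

lemma gg_mul (α β : eis) : gg π e j (α * β) = gg π e j α * gg π e j β := by
  unfold gg
  rw [X_mul h, (eo9 j).mul]
  push_cast
  simp only [map_mul]
  ring

include hj

lemma e9_unit {u : eis} (hu : IsUnit u) : e9 j u = (u : ℂ) ^ (2 * (j : ℕ) + 1) := by
  unfold e9
  rw [ej_u j hu, th_unit' hu, mul_one]

lemma gg_unit {u : eis} (hu : IsUnit u) : gg π e j u = 1 := by
  unfold gg
  have h1 := unitG h hj hu
  have h2 : Complex.normSq (u : ℂ) = 1 := (isUnit_iff' u).1 hu
  have h3 : (u : ℂ) * (starRingEnd ℂ) (u : ℂ) = 1 := by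
    rw [Complex.mul_conj, h2, Complex.ofReal_one]
  rw [e9_unit h hj hu, pow_succ]
  have h4 : (starRingEnd ℂ) ((u : ℂ) ^ (2 * (j : ℕ)) * XX π e u) = 1 := by rw [h1, map_one]
  rw [map_mul] at h4
  simp only [map_mul]
  linear_combination h3 * ((starRingEnd ℂ) ((u : ℂ) ^ (2 * (j : ℕ))) *
    (starRingEnd ℂ) (XX π e u)) + h4

lemma gg_assoc {α β : eis} (hab : Associated α β) : gg π e j α = gg π e j β := by
  obtain ⟨u, rfl⟩ := hab
  rw [gg_mul h, gg_unit h hj u.isUnit, mul_one]

lemma th_sp (α : eis) : th π e j (sp α) = gg π e j α := by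
  refine gg_assoc h hj ?_
  rw [← Ideal.span_singleton_eq_span_singleton]
  exact Ideal.span_singleton_generator _

omit hj in
lemma gg_zero_iff {α : eis} : gg π e j α = 0 ↔ (α = 0 ∨ ¬ IsCoprime α (9 * cP π)) := by
  rw [IsCoprime.mul_right_iff, nine_cop, ← X_ne_cop h]
  unfold gg
  rw [mul_eq_zero, map_eq_zero, mul_eq_zero]
  have h1 : e9 j α = 0 ↔ ¬ IsCoprime α 3 := by
    constructor
    · intro h1 h2
      exact e9_ne j h2 h1
    · exact e9_ncop j
  have h2 : (α : ℂ) = 0 ↔ α = 0 := by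
    constructor
    · intro h3
      exact coe_inj' h3
    · rintro rfl
      rfl
  rw [h1, h2]
  tauto

omit hj in
lemma ex_div {q' : Ideal eis} (hq : sp (9 * cP π) < q') :
    (-(3 * la)) * cP π ∈ q' ∨ ∃ i, 9 * cc (fun i => eq0 (π i)) (Finset.univ.erase i) ∈ q' := by
  obtain ⟨d, rfl⟩ : ∃ d : eis, q' = sp d :=
    ⟨_, (Submodule.IsPrincipal.span_singleton_generator q').symm⟩
  obtain ⟨t, ht⟩ : d ∣ 9 * cP π := Ideal.span_singleton_le_span_singleton.1 hq.le
  have hne : 9 * cP π ≠ 0 := mul_ne_zero nine_ne (cP_ne h)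
  have ht0 : t ≠ 0 := by
    rintro rfl
    rw [mul_zero] at ht
    exact hne ht
  have hnu : ¬ IsUnit t := by
    intro hu
    obtain ⟨v, hv⟩ := hu.exists_right_inv
    have h2 : 9 * cP π ∣ d := ⟨v, by rw [ht, mul_assoc, hv, mul_one]⟩
    have := Ideal.span_singleton_le_span_singleton.2 h2
    exact absurd (le_antisymm hq.le this) hq.ne
  obtain ⟨ρ, hρ, s, hs⟩ := WfDvdMonoid.exists_irreducible_factor hnu ht0
  have hρ' := hρ.prime
  have hd : ρ ∣ 9 * cP π := ⟨d * s, by rw [ht, hs]; ring⟩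
  rcases hρ'.dvd_or_dvd hd with h1 | h1
  · left
    obtain ⟨u, hu⟩ := hρ'.associated_of_dvd prime_la (nine_la hρ' h1)
    have h3 : ρ * (u * ((-(3 * la)) * cP π)) = ρ * (d * s) := by
      have h5 : 9 * cP π = d * (ρ * s) := by rw [ht, hs]
      rw [nine_eq, ← hu] at h5
      rw [← hu]
      linear_combination h5
    have h4 := mul_left_cancel₀ hρ'.ne_zero h3
    rw [Ideal.mem_span_singleton']
    refine ⟨s * (↑u⁻¹ : eis), ?_⟩
    have h5 : (↑u⁻¹ : eis) * u = 1 := u.inv_mul
    linear_combination -(↑u⁻¹ : eis) * h4 + ((-(3 * la)) * cP π) * h5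
  · right
    unfold cP cc at h1
    rw [hρ'.dvd_finsetProd_iff] at h1
    obtain ⟨i, -, hi⟩ := h1
    have hpi : Prime (eq0 (π i)) := (MulEquiv.prime_iff (eq0 : Ei ≃* eis)).2 (h.pq i).prime
    obtain ⟨u, hu⟩ := hρ'.associated_of_dvd hpi hi
    refine ⟨i, ?_⟩
    have hc : cP π = eq0 (π i) * cc (fun i => eq0 (π i)) (Finset.univ.erase i) := by
      unfold cP
      rw [← cc_insert (π := fun i => eq0 (π i)) (Finset.notMem_erase i Finset.univ),
        Finset.insert_erase (Finset.mem_univ i)]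
    have h3 : ρ * (u * (9 * cc (fun i => eq0 (π i)) (Finset.univ.erase i))) =
        ρ * (d * s) := by
      have h5 : 9 * cP π = d * (ρ * s) := by rw [ht, hs]
      rw [hc, ← hu] at h5
      linear_combination h5
    have h4 := mul_left_cancel₀ hρ'.ne_zero h3
    rw [Ideal.mem_span_singleton']
    refine ⟨s * (↑u⁻¹ : eis), ?_⟩
    have h5 : (↑u⁻¹ : eis) * u = 1 := u.inv_mul
    linear_combination -(↑u⁻¹ : eis) * h4 +
      (9 * cc (fun i => eq0 (π i)) (Finset.univ.erase i)) * h5

/-- **The primitive Hecke character.** -/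
theorem hc_th : HC 1 (sp (9 * cP π)) (th π e j) := by
  refine ⟨?_, ?_, ?_, ?_, ?_⟩
  · rw [Ne, Ideal.span_singleton_eq_bot]
    exact mul_ne_zero nine_ne (cP_ne h)
  · intro I K
    obtain ⟨α, rfl⟩ : ∃ α : eis, I = sp α :=
      ⟨_, (Submodule.IsPrincipal.span_singleton_generator I).symm⟩
    obtain ⟨β, rfl⟩ : ∃ β : eis, K = sp β :=
      ⟨_, (Submodule.IsPrincipal.span_singleton_generator K).symm⟩
    have e1 : sp α * sp β = sp (α * β) := Ideal.span_singleton_mul_span_singleton α β
    rw [e1, th_sp h hj, th_sp h hj, th_sp h hj, gg_mul h]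
  · intro I
    obtain ⟨α, rfl⟩ : ∃ α : eis, I = sp α :=
      ⟨_, (Submodule.IsPrincipal.span_singleton_generator I).symm⟩
    rw [th_sp h hj, gg_zero_iff h, Ideal.span_singleton_eq_bot,
      Ideal.isCoprime_span_singleton_iff]
  · intro α _ hα
    rw [th_sp h hj, pow_one]
    unfold gg
    rw [e9_mm (sp_mul_le' hα), X_per h (sp_mul_le hα), X_one h, mul_one, map_one, mul_one]
  · intro q' hq
    have h3c := cop3 h
    have h9c : IsCoprime (9 : eis) (cP π) := by
      have e9 : (9 : eis) = 3 * 3 := by norm_num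
      rw [e9]
      exact h3c.mul_left h3c
    rcases ex_div h hq with h1 | ⟨i, h1⟩
    · obtain ⟨a, b, hab⟩ := h9c
      set α : eis := 1 + b * cP π * (3 * la) with hα
      have hα1 : α - 1 ∈ (sp (cP π) : Ideal eis) := by
        rw [Ideal.mem_span_singleton']
        exact ⟨b * (3 * la), by rw [hα]; ring⟩
      have hα9 : α - (1 + 3 * la) ∈ (sp 9 : Ideal eis) := by
        rw [Ideal.mem_span_singleton']
        exact ⟨-(3 * la) * a, by rw [hα]; linear_combination -(3 * la) * hab⟩
      have hα3 : α - 1 ∈ (sp 3 : Ideal eis) := by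
        rw [Ideal.mem_span_singleton']
        exact ⟨b * cP π * la, by rw [hα]; ring⟩
      have hX : XX π e α = 1 := by rw [X_per h hα1, X_one h]
      have hcop : IsCoprime α 3 := cop_of_unit isUnit_one hα3
      have hα0 : α ≠ 0 := prim_ne hα3
      refine ⟨α, hα0, ?_, ?_, ?_⟩
      · have e1 : α - 1 = (-b) * ((-(3 * la)) * cP π) := by
          rw [hα]
          ring
        rw [e1]
        exact q'.mul_mem_left _ h1
      · rw [Ideal.isCoprime_span_singleton_iff, IsCoprime.mul_right_iff, nine_cop,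
          ← X_ne_cop h, hX]
        exact ⟨hcop, one_ne_zero⟩
      · rw [th_sp h hj, pow_one]
        unfold gg
        rw [hX, mul_one]
        intro h2
        have h4 : (α : ℂ) ≠ 0 := fun h5 => hα0 (coe_inj' h5)
        have h5 : (starRingEnd ℂ) (e9 j α) = 1 :=
          mul_left_cancel₀ h4 (by rw [h2, mul_one])
        have h6 := congrArg (starRingEnd ℂ) h5
        rw [Complex.conj_conj, map_one] at h6
        exact th_la hα9 j h6
    · set P : J → eis := fun i => eq0 (π i) with hP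
      set ci : eis := cc P (Finset.univ.erase i) with hci
      obtain ⟨g, hg0, hg⟩ := ex_ne (h.pq i)
      have hci3 : IsCoprime (9 * ci) (P i) := by
        rw [IsCoprime.mul_left_iff]
        constructor
        · unfold cP cc at h9c
          rw [IsCoprime.prod_right_iff] at h9c
          exact h9c i (Finset.mem_univ i)
        · exact ((Xc_fm h).cop_cc (Finset.notMem_erase i _)).symm
      obtain ⟨a, b, hab⟩ := hci3
      set α : eis := 1 + a * (9 * ci) * (eq0 g - 1) with hα
      have hα9 : α - 1 ∈ (sp 9 : Ideal eis) := by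
        rw [Ideal.mem_span_singleton']
        exact ⟨a * ci * (eq0 g - 1), by rw [hα]; ring⟩
      have hα3 : α - 1 ∈ (sp 3 : Ideal eis) := Pool.Agent.E8helper20.CT3.Ch.nine_three hα9
      have hαk : ∀ k, k ≠ i → α - 1 ∈ (sp (P k) : Ideal eis) := by
        intro k hk
        have h2 : α - 1 ∈ (sp ci : Ideal eis) := by
          rw [Ideal.mem_span_singleton']
          exact ⟨a * 9 * (eq0 g - 1), by rw [hα]; ring⟩
        exact cc_mem (Finset.mem_erase.2 ⟨hk, Finset.mem_univ k⟩) h2
      have hαi : α - eq0 g ∈ (sp (P i) : Ideal eis) := by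
        rw [Ideal.mem_span_singleton']
        exact ⟨-(eq0 g - 1) * b, by rw [hα]; linear_combination -(eq0 g - 1) * hab⟩
      have hX : XX π e α = Xc π e i (eq0 g) := by
        unfold XX XT
        rw [← Finset.mul_prod_erase Finset.univ _ (Finset.mem_univ i), Finset.prod_eq_one, mul_one]
        · exact (Xc_fm h).per i _ _ hαi
        · intro k hk
          have h2 := (Xc_fm h).per k _ _ (hαk k (Finset.ne_of_mem_erase hk))
          rw [h2, Xc_of (nd_unit h isUnit_one k), map_one]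
          have h4 := Pool.Agent.Y715.T.RecG.cs_one (h.pq k).prime (h.pq k).norm
          rw [h4, mul_zero, neg_zero, ZMod.val_zero, pow_zero]
      have hg1 : ¬ π i ∣ eq0.symm (eq0 g) := by rwa [RingEquiv.symm_apply_apply]
      have hXg : Xc π e i (eq0 g) ≠ 1 := by
        rw [Xc_of hg1, RingEquiv.symm_apply_apply]
        intro h3
        have h4 : toC w ^ (-(e i * Pool.Agent.Y715.T.Rec.cs (π i) g)).val = toC w ^ 0 := by rw [h3, pow_zero]
        have h5 := Pool.Agent.Y715.T.Fin.w_pow_mod h4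
        rw [ZMod.natCast_zmod_val, Nat.cast_zero, neg_eq_zero] at h5
        exact (mul_ne_zero (h.e0 i) hg) h5
      have hX0 : XX π e α ≠ 0 := by
        rw [hX, Xc_of hg1]
        exact pow_ne_zero _ (w_ne h)
      have hcop : IsCoprime α 3 := cop_of_unit isUnit_one hα3
      have hα0 : α ≠ 0 := prim_ne hα3
      refine ⟨α, hα0, ?_, ?_, ?_⟩
      · have e1 : α - 1 = (a * (eq0 g - 1)) * (9 * ci) := by
          rw [hα]
          ring
        rw [e1]
        exact q'.mul_mem_left _ h1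
      · rw [Ideal.isCoprime_span_singleton_iff, IsCoprime.mul_right_iff, nine_cop, ← X_ne_cop h]
        exact ⟨hcop, hX0⟩
      · rw [th_sp h hj, pow_one]
        unfold gg
        rw [hX, e9_mm hα9, one_mul]
        intro h2
        have h4 : (α : ℂ) ≠ 0 := fun h5 => hα0 (coe_inj' h5)
        have h5 : (starRingEnd ℂ) (Xc π e i (eq0 g)) = 1 :=
          mul_left_cancel₀ h4 (by rw [h2, mul_one])
        have h6 := congrArg (starRingEnd ℂ) h5
        rw [Complex.conj_conj, map_one] at h6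
        exact hXg h6

end T

end Pool.Agent.E8helper20.CT3.Hk
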