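import Pool.Agent.E8helper20.CT3.Rz
import Pool.Agent.Y703.CT.Ana

/-!
# Valuations of the values at the points of order nine times points prime to three
-/

set_option autoImplicit false

open Filter
open scoped Topology PeriodPair

namespace Pool.Agent.E8helper20.CT3.Xi

open H667R3 Pool.Agent.W192.HK Pool.Agent.TH936.CM Pool.Agent.TH936.PU
open Pool.Agent.Y715.Dist Pool.Agent.Y715.Idn
open Pool.Agent.Y715.T.Lat Pool.Agent.Y715.T.Three Pool.Agent.Y696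
open Pool.Agent.Y715.Two (v_nat v_int v_unit v_mul_le_of)
open Pool.Agent.Y715.T.Cg (Cg Zt zt_of_prim z_pow)

variable {L : PeriodPair} {Ω : ℂ}

section

variable (hC : Cur L Ω)

include hC

lemma gd_z0 {c : eis} (hc : c ≠ 0) (h3c : IsCoprime 3 c) (x : eis) :
    Gd L (Ω / 9 + Ω * x / c) := by
  intro h
  have hc0 : (c : ℂ) ≠ 0 := coe_ne hc
  have h1 := hC.lat.mul c _ h
  have h2 : Ω * ((6 * la * x : eis) : ℂ) ∈ L.lattice := (hC.lat.mem _).2 ⟨_, rfl⟩
  have h3 := sub_mem h1 h2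
  have e6 : ((6 : eis) : ℂ) = 6 := rfl
  have e2 : ((2 : eis) : ℂ) = 2 := rfl
  rw [hC.mem_third (r := 2 * la * c) (by
    push_cast
    rw [la_coe, e6, e2]
    field_simp
    ring)] at h3
  obtain ⟨s, t, hst⟩ := h3c
  have h4 : (2 * la : eis) ∈ (sp 3 : Ideal eis) := by
    obtain ⟨r, hr⟩ := Ideal.mem_span_singleton'.1 h3
    rw [Ideal.mem_span_singleton']
    exact ⟨2 * la * s + t * r, by linear_combination t * hr + 2 * la * hst⟩
  have e : (2 : eis) * la = ez 2 4 := by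
    unfold la ez
    push_cast
    ring
  rw [e, mem_three] at h4
  omega

lemma gd_z1 : Gd L (Ω / 9) := by
  have h := gd_z0 hC one_ne_zero isCoprime_one_right 0
  have e : Ω / 9 + Ω * ((0 : eis) : ℂ) / ((1 : eis) : ℂ) = Ω / 9 := by
    push_cast
    ring
  rwa [e] at h

lemma RR0 : RR L Ω (Ω / 9) ^ 3 = -27 * ℘'[L] (Ω / 3) := by
  have h := RR_cube hC (gd_z1 hC)
  have e : 3 * (Ω / 9) = Ω / 3 := by ring
  rw [e] at h
  rw [h]
  linear_combination (27 * ℘'[L] (Ω / 3)) * hC.x0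

lemma RR0_ne : RR L Ω (Ω / 9) ≠ 0 := by
  intro h
  have h1 := RR0 hC
  rw [h] at h1
  have h2 := ytau_ne hC
  apply h2
  linear_combination (1 / 27 : ℂ) * h1

lemma RRw {w : ℂ} (h : Gd L (Ω / 9 + w)) (hw : 3 * w ∉ L.lattice)
    (h1 : Ω / 3 + 3 * w ∉ L.lattice) (h2 : Ω / 3 - 3 * w ∉ L.lattice) :
    RR L Ω (Ω / 9 + w) ^ 3 *
      (℘'[L] (3 * w) - ℘'[L] (Ω / 3) * (1 + 2 * ℘[L] (Ω / 3) ^ 2 * ℘[L] (3 * w))) =
    -27 * ℘'[L] (Ω / 3) *
      (℘'[L] (3 * w) + ℘'[L] (Ω / 3) * (1 + 2 * ℘[L] (Ω / 3) ^ 2 * ℘[L] (3 * w))) := by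
  have hR := RR_cube hC h
  have e : 3 * (Ω / 9 + w) = Ω / 3 + 3 * w := by ring
  rw [e] at hR
  obtain ⟨a1, a2⟩ := add_three hC hC.third_two hC.x0 hw h1 h2
  have hX := hC.x0
  set Q := ℘[L] (3 * w)
  set Q' := ℘'[L] (3 * w)
  set y0 := ℘'[L] (Ω / 3)
  set xt := ℘[L] (Ω / 3)
  linear_combination (Q' - y0 * (1 + 2 * xt ^ 2 * Q)) * hR - (27 / 2 : ℂ) * a2 +
    27 * y0 * xt ^ 2 * a1 + 27 * y0 * (Q' + y0) * hX

variable {Γ : Type*} [LinearOrderedCommGroupWithZero Γ] {v : Valuation ℂ Γ} (hv : v 3 < 1)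

include hv

omit hC in
lemma cube_one {r : ℂ} (h : v (r ^ 3 + 1) < 1) : v (r + 1) < 1 := by
  have h1 : v (r ^ 3) = 1 := by
    have e : r ^ 3 = -(1 - (r ^ 3 + 1)) := by ring
    rw [e, v.map_neg]
    rw [v.map_one_sub_of_lt h]
  have h2 : v r = 1 := by
    rw [map_pow] at h1
    exact (pow_left_inj₀ zero_le zero_le (three_ne_zero)).1 (by rw [h1, one_pow])
  have h3 : v (r + 1) ≤ 1 := v.map_add_le h2.le (by rw [map_one])
  have h4 : v ((r + 1) ^ 3) < 1 := by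
    have e : (r + 1) ^ 3 = (r ^ 3 + 1) + 3 * (r * (r + 1)) := by ring
    rw [e]
    refine v.map_add_lt h ?_
    rw [map_mul, map_mul, h2, one_mul]
    calc v 3 * v (r + 1) ≤ v 3 * 1 := mul_le_mul' le_rfl h3
      _ = v 3 := mul_one _
      _ < 1 := hv
  rw [map_pow] at h4
  exact (pow_lt_one_iff (by norm_num)).1 h4

lemma v_y0 : v (℘'[L] (Ω / 3)) = v lam := by
  have h9 : v (℘'[L] (Ω / 3)) ^ 2 = v lam ^ 2 := by
    rw [← map_pow, hC.y0, v.map_neg, pow_two, sq_three]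
  exact (pow_left_inj₀ zero_le zero_le two_ne_zero).1 h9

lemma v_xt : v (℘[L] (Ω / 3)) = 1 := by
  refine z_pow (k := 6) (by norm_num) ?_
  have := hC.x0
  linear_combination (℘[L] (Ω / 3) ^ 3 - 1) * this

/-- the valuation of the constant -/
lemma v_RR0 : v (RR L Ω (Ω / 9)) ^ 3 = v lam ^ 7 := by
  have h27 : v (27 : ℂ) = v lam ^ 6 := by
    have e : (27 : ℂ) = 3 ^ 3 := by norm_num
    rw [e, map_pow, ← sq_three, ← pow_two, ← pow_mul]
  rw [← map_pow, RR0 hC, map_mul, v.map_neg, h27, v_y0 hC hv, ← pow_succ]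

/-- the ratio -/
theorem ratio {w : ℂ} (h : Gd L (Ω / 9 + w)) (hw : 3 * w ∉ L.lattice)
    (h1 : Ω / 3 + 3 * w ∉ L.lattice) (h2 : Ω / 3 - 3 * w ∉ L.lattice)
    (hQ : v (℘'[L] (3 * w)) ^ 2 ≤ v lam ^ 3) :
    v (RR L Ω (Ω / 9 + w) / RR L Ω (Ω / 9) + 1) < 1 := by
  have hR := RRw hC h hw h1 h2
  have hR0 := RR0 hC
  have hne := RR0_ne hC
  have hy := hC.ode hw
  have hX := hC.x0
  have hl1 := lam_lt hv
  have hl0 : v lam ≠ 0 := lam_ne
  set Q := ℘[L] (3 * w)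
  set Q' := ℘'[L] (3 * w)
  have vy0 := v_y0 hC hv
  set y0 := ℘'[L] (Ω / 3)
  set xt := ℘[L] (Ω / 3)
  obtain ⟨s, hs⟩ : ∃ s : ℂ, s = 1 + 2 * xt ^ 2 * Q := ⟨_, rfl⟩
  rw [← hs] at hR
  have hs3 : s ^ 3 + 1 = 3 * (s ^ 2 - s) + 2 * Q' ^ 2 := by
    have e : s - 1 = 2 * xt ^ 2 * Q := by rw [hs]; ring
    have e1 : (s - 1) ^ 3 = 2 * Q' ^ 2 - 2 := by
      rw [e]
      linear_combination (8 * Q ^ 3 * (xt ^ 3 - 1)) * hX - 2 * hy
    linear_combination e1
  have hQ1 : v (Q' ^ 2) < 1 := by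
    rw [map_pow]
    refine hQ.trans_lt ?_
    exact pow_lt_one₀ zero_le hl1 (by norm_num)
  have hs1 : v s ≤ 1 := by
    by_contra hcon
    push Not at hcon
    have e1 : (s - 1) ^ 3 = 2 * Q' ^ 2 - 2 := by linear_combination hs3
    have e2 : v (s - 1) = v s := by
      have : v (s + (-1)) = max (v s) (v (-1)) := by
        apply v.map_add_of_distinct_val
        rw [v.map_neg, map_one]
        exact hcon.ne'
      rw [sub_eq_add_neg, this, v.map_neg, map_one, max_eq_left hcon.le]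
    have e3 : v ((s - 1) ^ 3) ≤ 1 := by
      rw [e1]
      refine v.map_sub_le ?_ ?_
      · rw [map_mul, v_two hv, one_mul]
        exact hQ1.le
      · rw [v_two hv]
    rw [map_pow, e2] at e3
    exact absurd e3 (not_le.2 (one_lt_pow₀ hcon (by norm_num)))
  have hs2 : v (s ^ 3 + 1) < 1 := by
    rw [hs3]
    refine v.map_add_lt ?_ ?_
    · rw [map_mul]
      have e4 : v (s ^ 2 - s) ≤ 1 := v.map_sub_le (by rw [map_pow]; exact pow_le_one' hs1 2) hs1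
      calc v 3 * v (s ^ 2 - s) ≤ v 3 * 1 := mul_le_mul' le_rfl e4
        _ = v 3 := mul_one _
        _ < 1 := hv
    · rw [map_mul, v_two hv, one_mul]
      exact hQ1
  have hs4 : v s = 1 := by
    have h5 : v (s ^ 3) = 1 := by
      have e : s ^ 3 = -(1 - (s ^ 3 + 1)) := by ring
      rw [e, v.map_neg, v.map_one_sub_of_lt hs2]
    rw [map_pow] at h5
    exact (pow_left_inj₀ zero_le zero_le (three_ne_zero)).1 (by rw [h5, one_pow])
  have hQ2 : v Q' < v lam := by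
    by_contra hcon
    push Not at hcon
    have h6 : v lam ^ 2 ≤ v Q' ^ 2 := pow_le_pow_left' hcon 2
    have h7 : v lam ^ 3 < v lam ^ 2 :=
      pow_lt_pow_right_of_lt_one₀ (zero_lt_iff.2 hl0) hl1 (by norm_num)
    exact absurd (h6.trans hQ) (not_le.2 h7)
  have hG : v (Q' - y0 * s) = v lam := by
    have h8 : v (Q' - y0 * s) = max (v Q') (v (y0 * s)) := by
      rw [sub_eq_add_neg, v.map_add_of_distinct_val]
      · rw [v.map_neg]
      · rw [v.map_neg, map_mul, vy0, hs4, mul_one]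
        exact hQ2.ne
    rw [h8, map_mul, vy0, hs4, mul_one, max_eq_right hQ2.le]
  have hG0 : Q' - y0 * s ≠ 0 := by
    intro h0
    rw [h0, map_zero] at hG
    exact hl0 hG.symm
  apply cube_one hv
  have e5 : (RR L Ω (Ω / 9 + w) / RR L Ω (Ω / 9)) ^ 3 + 1 = 2 * Q' / (Q' - y0 * s) := by
    have hy0 : y0 ≠ 0 := ytau_ne hC
    rw [div_pow, hR0]
    rw [eq_div_iff hG0]
    have e6 : (RR L Ω (Ω / 9 + w) ^ 3 / (-27 * y0) + 1) * (Q' - y0 * s) =
      (RR L Ω (Ω / 9 + w) ^ 3 * (Q' - y0 * s)) / (-27 * y0) + (Q' - y0 * s) := by ring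
    rw [e6, hR]
    field_simp
    ring
  rw [e5, map_div₀, hG, map_mul, v_two hv, one_mul, div_lt_one₀ (zero_lt_iff.2 hl0)]
  exact hQ2

/-- **The sums are congruent to the negative of the constant.** -/
theorem phi_small {c : eis} (hc : c ≠ 0) (h3c : IsCoprime 3 c) (hct : sp c ≠ ⊤)
    (hfin : ∀ q : eis, q ≠ 0 → Finite (eis ⧸ sp q)) {x : eis} (hx : IsCoprime x c) :
    v ((RR L Ω (Ω / 9 + Ω * x / c) + RR L Ω (Ω / 9 - Ω * x / c)) / (2 * RR L Ω (Ω / 9)) + 1) < 1 := by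
  have hc0 : (c : ℂ) ≠ 0 := coe_ne hc
  have hne := RR0_ne hC
  have key : ∀ y : eis, IsCoprime y c →
      v (RR L Ω (Ω / 9 + Ω * y / c) / RR L Ω (Ω / 9) + 1) < 1 := by
    intro y hy
    have e3 : ((3 : eis) : ℂ) = 3 := rfl
    have hy3 : IsCoprime (3 * y) c := h3c.mul_left hy
    have e1 : 3 * (Ω * y / c) = Ω * ((3 * y : eis) : ℂ) / c := by
      push_cast
      rw [e3]
      ring
    have hw : 3 * (Ω * y / c) ∉ L.lattice := by
      rw [e1, div_mem_iff hC.lat hc]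
      exact notMem_of_cop hct hy3
    have hgen : ∀ z : eis, Ω / 3 + Ω * z / c ∉ L.lattice := by
      intro z h
      have h1 := hC.lat.mul c _ h
      have h2 : Ω * (z : ℂ) ∈ L.lattice := (hC.lat.mem _).2 ⟨_, rfl⟩
      have h3 := sub_mem h1 h2
      rw [hC.mem_third (r := c) (by field_simp; ring)] at h3
      obtain ⟨s, t, hst⟩ := h3c
      have h4 : (1 : eis) ∈ (sp 3 : Ideal eis) := by
        rw [← hst]
        exact add_mem (Ideal.mul_mem_left _ _ (Ideal.mem_span_singleton_self _))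
          (Ideal.mul_mem_left _ _ h3)
      rw [← ez_one, mem_three] at h4
      omega
    have h1 : Ω / 3 + 3 * (Ω * y / c) ∉ L.lattice := by
      rw [e1]
      exact hgen _
    have h2 : Ω / 3 - 3 * (Ω * y / c) ∉ L.lattice := by
      have e2 : Ω / 3 - 3 * (Ω * y / c) = Ω / 3 + Ω * ((-(3 * y) : eis) : ℂ) / c := by
        push_cast
        rw [e3]
        ring
      rw [e2]
      exact hgen _
    have hD := Pool.Agent.Y703.CT.Ana.dat' hC hc h3c hct hfin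
    have h4 := X_le hv hD ⟨3 * y, hy3⟩
    refine ratio hC hv (gd_z0 hC hc h3c y) hw h1 h2 ?_
    rw [e1, ← map_pow]
    exact h4
  have k1 := key x hx
  have k2 := key (-x) hx.neg_left
  have e4 : Ω / 9 + Ω * ((-x : eis) : ℂ) / c = Ω / 9 - Ω * x / c := by
    push_cast
    ring
  rw [e4] at k2
  have e5 : (RR L Ω (Ω / 9 + Ω * x / c) + RR L Ω (Ω / 9 - Ω * x / c)) / (2 * RR L Ω (Ω / 9)) + 1 =
      ((RR L Ω (Ω / 9 + Ω * x / c) / RR L Ω (Ω / 9) + 1) +
        (RR L Ω (Ω / 9 - Ω * x / c) / RR L Ω (Ω / 9) + 1)) / 2 := by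
    field_simp
    ring
  rw [e5, map_div₀, v_two hv, div_one]
  exact v.map_add_lt k1 k2

end

end Pool.Agent.E8helper20.CT3.Xi
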