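import Pool.Agent.E8helper20.CT3.Chr
import Pool.Agent.E8helper20.CT3.Rv

/-!
# Sums over the residues modulo nine
-/

set_option autoImplicit false
set_option linter.unusedSectionVars false

open Filter
open scoped Classical Topology PeriodPair

namespace Pool.Agent.E8helper20.CT3.Ni

open H667R3 Pool.Agent.W192.HK Pool.Agent.TH936.CM
open Pool.Agent.TH936.PU hiding v_int
open Pool.Agent.Y715.Dist Pool.Agent.Y715.Idn
open Pool.Agent.Y715.T.Lat Pool.Agent.Y696
open Pool.Agent.Y715.T.Three (lam lam_sq)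
open Pool.Agent.Y692.QS (Ei w nr toC)
open Pool.Agent.Y715.T.Rs (eq0)
open Pool.Agent.Y703.CT (toC_w_add re_one im_one fin_quot)
open Pool.Agent.Y703.CT.Ana (ej eo_j ej_u ej_ncop ej_prim)
open Pool.Agent.E8helper20.CT3 (yy)
open Pool.Agent.E8helper20.CT3.Ch Pool.Agent.E8helper20.CT3.Xi

/-- the sum over the six units -/
noncomputable def six (G : eis → ℂ) : ℂ :=
  G 1 + G (-1) + G omr + G (-omr) + G (omr ^ 2) + G (-omr ^ 2)

/-- the sum over the residues modulo nine -/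
theorem sum9 [Fintype (eis ⧸ (sp 9 : Ideal eis))] {F : eis → ℂ}
    (hF : ∀ x y : eis, x - y ∈ (sp 9 : Ideal eis) → F x = F y)
    (h0 : ∀ x, ¬ IsCoprime x 3 → F x = 0) :
    ∑ y : eis ⧸ (sp 9 : Ideal eis), F y.out =
      six (fun u => Sm (3 : eis) (fun t => F (u * (1 + 3 * t)))) := by
  have h3n := Pool.Agent.Y696.three_ne
  have : Fintype (eis ⧸ (sp 3 : Ideal eis)) := @Fintype.ofFinite _ (fin_quot _ h3n)
  have e9 : (9 : eis) = 3 * 3 := by norm_num
  have hF' : ∀ x y : eis, x - y ∈ (sp (3 * 3) : Ideal eis) → F x = F y := by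
    rw [← e9]
    exact hF
  have h1 : ∑ y : eis ⧸ (sp 9 : Ideal eis), F y.out = Sm (9 : eis) F := (Sm_eq _ _).symm
  have h2 : Sm (9 : eis) F = Sm (3 : eis) (fun x => Sm (3 : eis) (fun t => F (x + 3 * t))) := by
    rw [e9]
    exact Sm_mul h3n fin_quot h3n hF'
  have hper3 : ∀ x : eis, ∀ s t : eis, s - t ∈ (sp 3 : Ideal eis) →
      F (x + 3 * s) = F (x + 3 * t) := by
    intro x s t hst
    apply hF'
    obtain ⟨r, hr⟩ := Ideal.mem_span_singleton'.1 hst
    rw [Ideal.mem_span_singleton']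
    exact ⟨r, by linear_combination 3 * hr⟩
  rw [h1, h2, Sm_eq]
  rw [six_sum (fun x => Sm (3 : eis) (fun t => F (x + 3 * t)))]
  · have key : ∀ u : eis, IsUnit u → Sm (3 : eis) (fun t => F (u + 3 * t)) =
        Sm (3 : eis) (fun t => F (u * (1 + 3 * t))) := by
      intro u hu
      obtain ⟨v, hv⟩ := hu
      have hcop : IsCoprime (3 : eis) u := by
        rw [← hv]
        exact ⟨0, ↑v⁻¹, by rw [zero_mul, zero_add, Units.inv_mul]⟩
      rw [Sm_eq, Sm_eq, ← sum_mul_bij hcop (F := fun t => F (u + 3 * t)) (hper3 u)]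
      refine Finset.sum_congr rfl fun y _ => ?_
      congr 1
      ring
    have hu : ∀ v ∈ ({1, -1, omr, -omr, omr ^ 2, -omr ^ 2} : Set eis), IsUnit v := fun v hv =>
      (unit_list v).2 hv
    unfold six
    rw [key 1 (hu _ (by simp)), key (-1) (hu _ (by simp)), key omr (hu _ (by simp)),
      key (-omr) (hu _ (by simp)), key (omr ^ 2) (hu _ (by simp)), key (-omr ^ 2) (hu _ (by simp))]
  · intro x hx
    rw [Sm_eq]
    refine Finset.sum_eq_zero fun y _ => h0 _ fun h => hx ?_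
    obtain ⟨a, b, hab⟩ := h
    exact ⟨a, b + a * y.out, by linear_combination hab⟩
  · intro x y hxy
    obtain ⟨s, hs⟩ := Ideal.mem_span_singleton'.1 hxy
    have e : ∀ t : eis, x + 3 * t = y + 3 * (s + t) := fun t => by linear_combination -hs
    show Sm (3 : eis) (fun t => F (x + 3 * t)) = Sm (3 : eis) (fun t => F (y + 3 * t))
    simp only [e]
    exact Sm_shift (fin_quot _ h3n) s (F := fun t => F (y + 3 * t)) (hper3 y)

/-- the sum over the residues modulo three -/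
theorem sum3 {F : eis → ℂ}
    (hF : ∀ x y : eis, x - y ∈ (sp 3 : Ideal eis) → F x = F y) :
    Sm (3 : eis) F = ∑ k : Fin 3, ∑ j : Fin 3,
      F (ez ((k : ℕ) + (j : ℕ)) (2 * (j : ℕ))) := by
  have h3n := Pool.Agent.Y696.three_ne
  have : Fintype (eis ⧸ (sp 3 : Ideal eis)) := @Fintype.ofFinite _ (fin_quot _ h3n)
  rw [Sm_eq, ← Fintype.sum_prod_type']
  refine sum_rep (fun p : Fin 3 × Fin 3 =>
    ez (((p.1 : ℕ) : ℤ) + ((p.2 : ℕ) : ℤ)) (2 * ((p.2 : ℕ) : ℤ))) ?_ F hF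
  constructor
  · rintro ⟨k, j⟩ ⟨k', j'⟩ h
    have h1 := Ideal.Quotient.mk_eq_mk_iff_sub_mem _ _ |>.1 h
    simp only at h1
    rw [ez_sub, mem_three] at h1
    have hk := k.2
    have hj := j.2
    have hk' := k'.2
    have hj' := j'.2
    have e1 : (j : ℕ) = j' := by omega
    have e2 : (k : ℕ) = k' := by omega
    exact Prod.ext (Fin.ext e2) (Fin.ext e1)
  · intro q
    obtain ⟨x, rfl⟩ := Ideal.Quotient.mk_surjective q
    obtain ⟨a, b, rfl⟩ := ez_ex x
    have hj : ((2 * b) % 3).toNat < 3 := by omega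
    have hk : ((a - 2 * b) % 3).toNat < 3 := by omega
    refine ⟨(⟨_, hk⟩, ⟨_, hj⟩), ?_⟩
    rw [Ideal.Quotient.mk_eq_mk_iff_sub_mem, ez_sub, mem_three]
    simp only
    constructor
    · omega
    · omega

lemma w_om : toC w = om := by
  have := Pool.Agent.Y703.CT.toC_eq' 0 1
  have e1 : (w : Ei) = ⟨0, 1⟩ := rfl
  rw [e1, this]
  push_cast
  ring

lemma symm_ez (a b : ℤ) : eq0.symm (ez a b) = (⟨a, b⟩ : Ei) := by
  rw [RingEquiv.symm_apply_eq]
  apply Subtype.ext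
  rw [Pool.Agent.Y715.T.Rs.eq0_coe, Pool.Agent.Y703.CT.toC_eq', ez_coe]

lemma th_ez (a b : ℤ) : th (1 + 3 * ez a b) = toC w ^ (((b : ℤ) : ZMod 3)).val := by
  have h : (1 + 3 * ez a b) - 1 ∈ (sp 3 : Ideal eis) := by
    rw [Ideal.mem_span_singleton']
    exact ⟨ez a b, by ring⟩
  rw [th_prim h, map_add, map_mul, map_one, map_ofNat, symm_ez, yy_form]

variable {L : PeriodPair} {Ω : ℂ}

section

variable (hC : Cur L Ω)

include hC

/-- **The limit.** -/
theorem lim_RR {z : ℂ} (h : Gd L z) :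
    Tendsto (fun δ : ℝ => Sm (3 : eis) (fun t => th (1 + 3 * t) *
      EE eis Ω δ (z + Ω * t / 3))) (𝓝[>] 0) (𝓝 (RR L Ω z)) := by
  have l0 := lim_xi hC h
  have l1 := lim_xi hC (h.add (six_tau hC))
  have l2 := lim_xi hC (h.sub (six_tau hC))
  have l := (l0.add l1).add l2
  unfold RR
  refine l.congr fun δ => ?_
  have hO := om_mem hC
  have hmem : ∀ r : eis, Ω * (r : ℂ) ∈ L.lattice := fun r => (hC.lat.mem _).2 ⟨r, rfl⟩
  rw [sum3]
  swap
  · intro x y hxy
    obtain ⟨r, hr⟩ := Ideal.mem_span_singleton'.1 hxy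
    have e1 : th (1 + 3 * x) = th (1 + 3 * y) := by
      apply th_per
      rw [Ideal.mem_span_singleton']
      exact ⟨r, by linear_combination 3 * hr⟩
    rw [e1]
    congr 1
    apply EE_per hC.lat
    have hr' := congrArg (fun t : eis => (t : ℂ)) hr
    push_cast at hr'
    have e3 : ((3 : eis) : ℂ) = 3 := rfl
    rw [e3] at hr'
    have e2 : z + Ω * x / 3 - (z + Ω * y / 3) = Ω * r := by
      linear_combination (-Ω / 3) * hr'
    rw [e2]
    exact hmem r
  have hterm : ∀ (k j : Fin 3), th (1 + 3 * ez ((k : ℕ) + (j : ℕ)) (2 * (j : ℕ))) *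
      EE eis Ω δ (z + Ω * ((ez ((k : ℕ) + (j : ℕ)) (2 * (j : ℕ)) : eis) : ℂ) / 3) =
      toC w ^ (((2 * (j : ℕ) : ℤ) : ZMod 3)).val *
      EE eis Ω δ (z + (k : ℕ) * (Ω / 3) + (j : ℕ) * (lam * (Ω / 3))) := by
    intro k j
    rw [th_ez]
    congr 2
    rw [ez_coe]
    push_cast
    have elam : lam = om - om ^ 2 := by
      rw [← la_coe, la_eq]
      push_cast
      rw [omr_coe]
    rw [elam]
    linear_combination (((j : ℕ) : ℂ) * Ω / 3) * om_sq
  simp only [hterm, Fin.sum_univ_three, Fin.val_zero, Fin.val_one, Fin.val_two]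
  have c0 : (((2 * ((0 : ℕ) : ℤ) : ℤ) : ZMod 3)).val = 0 := by decide
  have c1 : (((2 * ((1 : ℕ) : ℤ) : ℤ) : ZMod 3)).val = 2 := by decide
  have c2 : (((2 * ((2 : ℕ) : ℤ) : ℤ) : ZMod 3)).val = 1 := by decide
  rw [c0, c1, c2, w_om]
  have q : ∀ a b : ℂ, b - a ∈ L.lattice → EE eis Ω δ b = EE eis Ω δ a := fun a b hab =>
    EE_per hC.lat δ hab
  have t1 := lam_mem hC hO
  -- periodicity
  have p1 : ∀ a : ℂ, EE eis Ω δ (a + ((2 : ℕ) : ℂ) * (lam * (Ω / 3))) =
      EE eis Ω δ (a - lam * (Ω / 3)) := by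
    intro a
    apply q
    have e : a + ((2 : ℕ) : ℂ) * (lam * (Ω / 3)) - (a - lam * (Ω / 3)) = lam * Ω := by
      push_cast
      ring
    rw [e]
    exact t1
  have p2 : ∀ b : ℂ, EE eis Ω δ (z + ((2 : ℕ) : ℂ) * (Ω / 3) + b) =
      EE eis Ω δ (z - Ω / 3 + b) := by
    intro b
    apply q
    have e : z + ((2 : ℕ) : ℂ) * (Ω / 3) + b - (z - Ω / 3 + b) = Ω := by
      push_cast
      ring
    rw [e]
    exact hO
  have p3 : ∀ b : ℂ, EE eis Ω δ (z + ((2 : ℕ) : ℂ) * (Ω / 3) - b) =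
      EE eis Ω δ (z - Ω / 3 - b) := by
    intro b
    rw [sub_eq_add_neg, p2, ← sub_eq_add_neg]
  simp only [p1, p2, p3]
  push_cast
  simp only [zero_mul, one_mul, add_zero, pow_zero, pow_one]

end

end Pool.Agent.E8helper20.CT3.Ni
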