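import Pool.Agent.E8helper20.CT3.Xi

/-!
# The closed form for the limit of the sum over the points of order three
-/

set_option autoImplicit false

open Filter
open scoped Topology PeriodPair

namespace Pool.Agent.E8helper20.CT3.Xi

open H667R3 Pool.Agent.W192.HK Pool.Agent.TH936.CM Pool.Agent.TH936.PU
open Pool.Agent.Y715.T.Lat Pool.Agent.Y715.T.Three Pool.Agent.Y696

variable {L : PeriodPair} {Ω : ℂ}

/-- the sum over the points of order three -/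
noncomputable def RR (L : PeriodPair) (Ω z : ℂ) : ℂ :=
  xi L Ω z + xi L Ω (z + Ω / 3) + xi L Ω (z - Ω / 3)

section

variable (hC : Cur L Ω)

include hC

lemma tau_ne : ℘[L] (Ω / 3) ≠ 0 := by
  intro h
  have h1 := hC.x0
  rw [h] at h1
  norm_num at h1

lemma ytau_ne : ℘'[L] (Ω / 3) ≠ 0 := by
  intro h
  have h1 := hC.y0
  rw [h] at h1
  norm_num at h1

lemma dat_p {z : ℂ} (h : Gd L z) :
    ℘'[L] z - ℘'[L] (Ω / 3) * (1 + 2 * ℘[L] (Ω / 3) ^ 2 * ℘[L] z) ≠ 0 ∧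
    ℘[L] (z + Ω / 3) * (℘'[L] z - ℘'[L] (Ω / 3) * (1 + 2 * ℘[L] (Ω / 3) ^ 2 * ℘[L] z)) =
      ℘[L] (Ω / 3) * (℘'[L] z + ℘'[L] (Ω / 3)) ∧
    (℘'[L] (z + Ω / 3) + ℘'[L] (Ω / 3)) *
      (℘'[L] z - ℘'[L] (Ω / 3) * (1 + 2 * ℘[L] (Ω / 3) ^ 2 * ℘[L] z)) =
      2 * ℘'[L] (Ω / 3) * (℘'[L] z - ℘'[L] (Ω / 3)) := by
  have hz := h.nm hC
  have h1 : Ω / 3 + z ∉ L.lattice := by
    rw [add_comm]
    exact (h.add (six_tau hC)).nm hC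
  have h2 : Ω / 3 - z ∉ L.lattice := by
    rw [← neg_sub, neg_mem_iff]
    exact (h.sub (six_tau hC)).nm hC
  have h4 := add_three hC hC.third_two hC.x0 hz h1 h2
  rw [add_comm (Ω / 3)] at h4
  refine ⟨?_, h4⟩
  have h5 := GG hC hC.third_two hC.x0 hz
  have h6 := wp_sub_ne hC.third hz h1 h2
  intro h0
  rw [h0, zero_mul] at h5
  refine h6 ?_
  have h7 : (℘[L] z - ℘[L] (Ω / 3)) ^ 3 = 0 := by linear_combination (-1 / 4 : ℂ) * h5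
  have h8 := pow_eq_zero_iff (n := 3) (by norm_num) |>.1 h7
  linear_combination -h8

lemma dat_m {z : ℂ} (h : Gd L z) :
    ℘'[L] z + ℘'[L] (Ω / 3) * (1 + 2 * ℘[L] (Ω / 3) ^ 2 * ℘[L] z) ≠ 0 ∧
    ℘[L] (z - Ω / 3) * (℘'[L] z + ℘'[L] (Ω / 3) * (1 + 2 * ℘[L] (Ω / 3) ^ 2 * ℘[L] z)) =
      ℘[L] (Ω / 3) * (℘'[L] z - ℘'[L] (Ω / 3)) ∧
    (℘'[L] (z - Ω / 3) - ℘'[L] (Ω / 3)) *
      (℘'[L] z + ℘'[L] (Ω / 3) * (1 + 2 * ℘[L] (Ω / 3) ^ 2 * ℘[L] z)) =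
      -2 * ℘'[L] (Ω / 3) * (℘'[L] z + ℘'[L] (Ω / 3)) := by
  have hz := h.nm hC
  have e1 : -(Ω / 3) + z = z - Ω / 3 := by ring
  have e2 : -(Ω / 3) - z = -(z + Ω / 3) := by ring
  have h1 : -(Ω / 3) + z ∉ L.lattice := by
    rw [e1]
    exact (h.sub (six_tau hC)).nm hC
  have h2 : -(Ω / 3) - z ∉ L.lattice := by
    rw [e2, neg_mem_iff]
    exact (h.add (six_tau hC)).nm hC
  have hX : ℘[L] (-(Ω / 3)) ^ 3 = -1 := by rw [L.weierstrassP_neg]; exact hC.x0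
  have h4 := add_three hC (tau2 hC) hX hz h1 h2
  have h5 := GG hC (tau2 hC) hX hz
  have h6 := wp_sub_ne (two_mul_notMem_of L (tau2 hC)) hz h1 h2
  rw [e1] at h4
  rw [L.weierstrassP_neg, L.derivWeierstrassP_neg] at h4 h5
  rw [L.weierstrassP_neg] at h6
  have e3 : ℘'[L] z + ℘'[L] (Ω / 3) * (1 + 2 * ℘[L] (Ω / 3) ^ 2 * ℘[L] z) =
    ℘'[L] z - -℘'[L] (Ω / 3) * (1 + 2 * ℘[L] (Ω / 3) ^ 2 * ℘[L] z) := by ring
  refine ⟨?_, ?_, ?_⟩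
  · rw [e3]
    intro h0
    rw [h0, zero_mul] at h5
    refine h6 ?_
    have h7 : (℘[L] z - ℘[L] (Ω / 3)) ^ 3 = 0 := by linear_combination (-1 / 4 : ℂ) * h5
    have h8 := pow_eq_zero_iff (n := 3) (by norm_num) |>.1 h7
    linear_combination -h8
  · linear_combination h4.1
  · linear_combination h4.2

lemma ne_p {z : ℂ} (h : Gd L z) : ℘'[L] z + ℘'[L] (Ω / 3) ≠ 0 := by
  obtain ⟨h1, h2, -⟩ := dat_p hC h
  intro h0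
  rw [h0, mul_zero] at h2
  exact mul_ne_zero ((h.add (six_tau hC)).x_ne hC) h1 h2

lemma ne_m {z : ℂ} (h : Gd L z) : ℘'[L] z - ℘'[L] (Ω / 3) ≠ 0 := by
  obtain ⟨h1, h2, -⟩ := dat_m hC h
  intro h0
  rw [h0, mul_zero] at h2
  exact mul_ne_zero ((h.sub (six_tau hC)).x_ne hC) h1 h2

lemma xi_p {z : ℂ} (h : Gd L z) : xi L Ω (z + Ω / 3) =
    ℘'[L] (Ω / 3) * ℘[L] (Ω / 3) ^ 2 * (℘'[L] z - ℘'[L] (Ω / 3)) /
      (℘'[L] z + ℘'[L] (Ω / 3)) := by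
  obtain ⟨h1, h2, h3⟩ := dat_p hC h
  have h4 := (h.add (six_tau hC)).x_ne hC
  have h5 := ne_p hC h
  have hX := hC.x0
  unfold xi
  rw [div_eq_div_iff (mul_ne_zero two_ne_zero h4) h5]
  apply mul_left_cancel₀ h1
  linear_combination (-(℘'[L] z + ℘'[L] (Ω / 3))) * h3 -
    2 * ℘'[L] (Ω / 3) * ℘[L] (Ω / 3) ^ 2 * (℘'[L] z - ℘'[L] (Ω / 3)) * h2 -
    2 * ℘'[L] (Ω / 3) * (℘'[L] z - ℘'[L] (Ω / 3)) * (℘'[L] z + ℘'[L] (Ω / 3)) * hX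

lemma xi_m {z : ℂ} (h : Gd L z) : xi L Ω (z - Ω / 3) =
    6 * ℘[L] (Ω / 3) * ℘[L] z / (℘'[L] z - ℘'[L] (Ω / 3)) := by
  obtain ⟨h1, h2, h3⟩ := dat_m hC h
  have h4 := (h.sub (six_tau hC)).x_ne hC
  have h5 := ne_m hC h
  have hY := hC.y0
  unfold xi
  rw [div_eq_div_iff (mul_ne_zero two_ne_zero h4) h5]
  apply mul_left_cancel₀ h1
  linear_combination (-(℘'[L] z - ℘'[L] (Ω / 3))) * h3 -
    12 * ℘[L] (Ω / 3) * ℘[L] z * h2 -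
    4 * ℘[L] (Ω / 3) ^ 2 * ℘[L] z * (℘'[L] z - ℘'[L] (Ω / 3)) * hY

/-- **The closed form.** -/
theorem RR_cube {z : ℂ} (h : Gd L z) : RR L Ω z ^ 3 =
    -(27 / 2) * (℘'[L] (3 * z) - ℘'[L] (Ω / 3) * (1 + 2 * ℘[L] (Ω / 3) ^ 2 * ℘[L] (3 * z))) := by
  have hx := h.x_ne hC
  have hp := ne_p hC h
  have hm := ne_m hC h
  have hy := hC.ode (h.nm hC)
  have hY := hC.y0
  have hX := hC.x0
  have w1 := wp_la hC (h.nm2 hC) (h.nmla hC)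
  have w2 := dwp_la hC (h.nm2 hC) (h.nmla hC)
  have w3 := wp_la hC (h.nmla2 hC) (h.nm3 hC)
  have w4 := dwp_la hC (h.nmla2 hC) (h.nm3 hC)
  have e3 : lam * (lam * z) = -(3 * z) := by linear_combination z * lam_sq
  rw [e3, L.weierstrassP_neg] at w3
  rw [e3, L.derivWeierstrassP_neg] at w4
  unfold RR
  rw [xi_p hC h, xi_m hC h]
  unfold xi
  have hl := lam_sq
  set x := ℘[L] z
  set y := ℘'[L] z
  set y0 := ℘'[L] (Ω / 3)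
  set xt := ℘[L] (Ω / 3)
  set x1 := ℘[L] (lam * z)
  set y1 := ℘'[L] (lam * z)
  set x3 := ℘[L] (3 * z)
  set y3 := ℘'[L] (3 * z)
  obtain ⟨A, hA⟩ : ∃ A : ℂ, A = -(y + y0) / (2 * x) := ⟨_, rfl⟩
  obtain ⟨B, hB⟩ : ∃ B : ℂ, B = -(y - y0) / (2 * x) := ⟨_, rfl⟩
  have hA0 : A ≠ 0 := by
    rw [hA]
    exact div_ne_zero (neg_ne_zero.2 hp) (mul_ne_zero two_ne_zero hx)
  have hB0 : B ≠ 0 := by
    rw [hB]
    exact div_ne_zero (neg_ne_zero.2 hm) (mul_ne_zero two_ne_zero hx)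
  have hA1 : 2 * x * A = -(y + y0) := by
    rw [hA]
    field_simp
  have hB1 : 2 * x * B = -(y - y0) := by
    rw [hB]
    field_simp
  have r1 : y0 * xt ^ 2 * (y - y0) / (y + y0) = y0 * xt ^ 2 * B / A := by
    rw [div_eq_div_iff hp hA0]
    apply mul_left_cancel₀ (mul_ne_zero two_ne_zero hx)
    linear_combination y0 * xt ^ 2 * (y - y0) * hA1 - y0 * xt ^ 2 * (y + y0) * hB1
  have r2 : 6 * xt * x / (y - y0) = -3 * xt / B := by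
    rw [div_eq_div_iff hm hB0]
    linear_combination 3 * xt * hB1
  rw [r1, r2, ← hA]
  -- the relations
  have hpq : A ^ 3 = B ^ 3 - 3 * y0 := by
    have h8 : 8 * x ^ 3 ≠ 0 := mul_ne_zero (by norm_num) (pow_ne_zero _ hx)
    apply mul_left_cancel₀ h8
    have e1 : 8 * x ^ 3 * A ^ 3 = (2 * x * A) ^ 3 := by ring
    have e2 : 8 * x ^ 3 * (B ^ 3 - 3 * y0) = (2 * x * B) ^ 3 - 24 * x ^ 3 * y0 := by ring
    rw [e1, e2, hA1, hB1]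
    linear_combination (-6 * y0) * hy - 2 * y0 * hY
  have hx1 : x1 = -(A * B) / 3 := by
    have h8 : 3 * x ^ 2 ≠ 0 := mul_ne_zero (by norm_num) (pow_ne_zero _ hx)
    apply mul_left_cancel₀ h8
    rw [w1]
    have e1 : 3 * x ^ 2 * (-(A * B) / 3) = -((2 * x * A) * (2 * x * B)) / 4 := by ring
    rw [e1, hA1, hB1]
    linear_combination (1 / 4 : ℂ) * hy - (1 / 4 : ℂ) * hY
  have hy1 : y1 = -(lam * (A ^ 3 + B ^ 3)) / 9 := by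
    have h8 : 9 * x ^ 3 ≠ 0 := mul_ne_zero (by norm_num) (pow_ne_zero _ hx)
    apply mul_left_cancel₀ h8
    rw [w2]
    have e1 : 9 * x ^ 3 * (-(lam * (A ^ 3 + B ^ 3)) / 9) =
      -(lam * ((2 * x * A) ^ 3 + (2 * x * B) ^ 3)) / 8 := by ring
    rw [e1, hA1, hB1]
    linear_combination (-(1 / 4) * lam * y : ℂ) * hy - (3 / 4 : ℂ) * lam * y * hY
  rw [hx1] at w3 w4
  rw [hy1] at w4
  have h3' : 9 * A ^ 2 * B ^ 2 * x3 = -(27 - A ^ 3 * B ^ 3) := by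
    linear_combination 27 * w3
  have h4' : 27 * A ^ 3 * B ^ 3 * y3 = -(A ^ 3 + B ^ 3) * (A ^ 3 * B ^ 3 + 54) := by
    linear_combination 81 * w4 + ((A ^ 3 + B ^ 3) * (A ^ 3 * B ^ 3 + 54) / 3) * hl
  have hAB : A ^ 3 * B ^ 3 ≠ 0 := mul_ne_zero (pow_ne_zero _ hA0) (pow_ne_zero _ hB0)
  apply mul_left_cancel₀ hAB
  have e5 : A ^ 3 * B ^ 3 * (A + y0 * xt ^ 2 * B / A + -3 * xt / B) ^ 3 =
      (A ^ 2 * B + y0 * xt ^ 2 * B ^ 2 - 3 * xt * A) ^ 3 := by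
    have : A ^ 3 * B ^ 3 * (A + y0 * xt ^ 2 * B / A + -3 * xt / B) ^ 3 =
      (A * B * (A + y0 * xt ^ 2 * B / A + -3 * xt / B)) ^ 3 := by ring
    rw [this]
    congr 1
    field_simp
    ring
  rw [e5]
  linear_combination (-18*B^3*xt^3*y0 + (1/2)*A^3*B^3 - 9*A^2*B^2*xt + 27*A*B*xt^2 - 15*B^3*y0 - 27*xt^3 - 27)*hpq + (B^6*xt^6*y0 + 3*A^2*B^5*xt^4 - 9*A*B^4*xt^5 + 54*B^3*xt^3 + 45*B^3)*hY + (-3*B^6*xt^3*y0 - 9*A^2*B^5*xt + 27*A*B^4*xt^2 - 15*B^6*y0 + 27*A^2*B^2*xt*y0 - 189*B^3 + 81*y0)*hX + (1/2)*h4' - 3*y0*xt^2*A*B*h3'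

end

end Pool.Agent.E8helper20.CT3.Xi
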