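import Mathlib
import Pool.Agent.Y703.CT.StmG
import Pool.Agent.Y703.CT.StmD
import Pool.Agent.Y703.CX.Stm

/-!
# Project CT3 (helper20): the cubic twists `y² + 3 D y = x³`, all primes of `D` are `1` modulo `3`

The curves are `E_{3D}` in the notation of `Pool/Agent/Y703/CT`. For `D > 1` free of cubes and with all
prime factors `1` modulo `3` the `3`-part of the leading-term formula over `ℚ` holds for `E_{3D}`:
`u = L(E_{3D},1) |tors|² / (Ω ∏ c_p)` is integral at `3`, a unit at `3` iff `E_{3D}(ℚ)` is finite and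
`Ш[3^∞] = 0`, iff `NoSplit (3 D)` (the old definition; the condition at the prime `3` is empty).
Statements of the parts; each is a variant of a statement of `Pool/Agent/Y703/CT/Stm*.lean`.
-/

set_option autoImplicit false
set_option linter.unusedVariables false

open scoped Classical

namespace Pool.Agent.E8helper20.CT3

open WeierstrassCurve
open Pool.Agent.W97.MT (affCount ap IsGloballyMinimal)
open Pool.Agent.Y700 (psi Omega SingRed E0 tam S_E0)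
open Pool.Agent.Y692.QS (Ei w nr toC)
open Pool.Agent.Y715.T.Rec (cs)
open Pool.Agent.Y715.T.RecG (Pq)
open Pool.Agent.Y715.T.Gi Pool.Agent.Y715.T.Nr Pool.Agent.Y715.T.Df Pool.Agent.Y715.T.Ell
open Pool.Agent.TH841.SH.D (Sha)
open Pool.Agent.Y703.CT

/-- `D > 1` is free of cubes and all its prime factors are `1` modulo `3` -/
def ClsT (D : ℕ) : Prop := 1 < D ∧ ∀ p : ℕ, p.Prime → p ∣ D → p % 3 = 1 ∧ ¬ p ^ 3 ∣ D

/-- the second digit: `α = 1 + 3 x + 3 y ω` modulo `9` gives `y` -/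
def yy (α : Ei) : ZMod 3 := ((α.im / 3 : ℤ) : ZMod 3)

/-- `v` is in the kernel of the Laplacian with the additional vertex `3` (where `v` is zero) -/
def KerV3 {J : Type} [Fintype J] (π : J → Ei) (e v : J → ZMod 3) : Prop :=
  ∀ j, ∑ i, e i * cs (π j) (π i) * (v i - v j) = cs (π j) 3 * v j

/-- the kernel is trivial -/
def Ker3 {J : Type} [Fintype J] (π : J → Ei) (e : J → ZMod 3) : Prop :=
  ∀ v : J → ZMod 3, KerV3 π e v → ∀ j, v j = 0

/-- `F` is the entire continuation of the `L`-series of the Hecke character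
`(α) ↦ α (3 / α)^(-1) ∏ (α / π_j)^(e_j)`, `α` primary -/
def IsHL3 {J : Type} [Fintype J] (π : J → Ei) (e : J → ZMod 3) (F : ℂ → ℂ) : Prop :=
  Differentiable ℂ F ∧ ∀ s : ℂ, 3 / 2 < s.re →
    HasSum (fun α : {α : Ei // (3 : Ei) ∣ α - 1} =>
      toC α * (chD π e α * toC w ^ (-yy α).val) * ((nr α : ℤ) : ℂ) ^ (-s)) (F s)

/-! ### Task 1: the equation and the Tamagawa numbers -/

/-- CT3-MIN (compare `Y288.CT.t_MIN`). -/
def S_MIN3 : Prop := ∀ D : ℕ, ClsT D → IsGloballyMinimal (WD ((3 * D : ℕ) : ℤ))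

/-- CT3-TAM: `c_p = 3` for `p ∣ D` and `c₃ = 3` (type IV at `3`; compare `Y145.CT.Tam`). -/
def S_TAM3 : Prop := S_E0 → ∀ D : ℕ, ClsT D →
  ∃ m : ℕ, ¬ 3 ∣ m ∧ tamProd (WD ((3 * D : ℕ) : ℤ)) = 3 ^ (D.primeFactors.card + 1) * m

/-! ### Task 2: the supplementary law and the `L`-function -/

/-- CT3-SUP: the supplementary law for `3`. -/
def S_SUP : Prop := ∀ π : Ei, Pq π → cs π 3 = yy π

/-- CT3-LQ (compare `Y696.CT.LQ`). -/
def S_LQ3 : Prop := S_REC → S_SUP → ∀ D : ℕ, ClsT D →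
  ∀ (J : Type) [Fintype J] (π : J → Ei) (e : J → ZMod 3),
    Dt π e → ((D : Ei) = pD π e ∨ (D : Ei) = -pD π e) →
    ∀ F, IsHL3 π (fun j => -e j) F → IsL (WD ((3 * D : ℕ) : ℤ)) F

/-! ### Task 3: the prime above three -/

/-- CT3-LOC3: the local condition at the prime above three (compare `Y180.CT.Loc3`, easier:
`Y² + D Y = X³` with `v(D) = v(3)` gives `Y = D ^ c V³ (1 + 3 t)`). -/
def S_LOC33 : Prop := ∀ (i₀ : QB) (hi : i₀ ^ 2 + i₀ + 1 = 0) (D : Ei), (3 : Ei) ∣ D - 1 →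
  ∀ (u : QB) (a : GK i₀ → ZMod 3), Tw hi (3 * D) u a →
  ∀ (h : GK i₀ → ZMod 3) (v q : Ei) (g : ℕ), IsUnit v → Kc hi (v * lam ^ g * (1 + 3 * q)) h →
  ∀ (_ : Fact (Nat.Prime 3)) (ι : QB →ₐ[ℚ] PadicAlgCl 3) (R : Pt (PadicAlgCl 3)),
    St1 hi ι a h R → v = 1 ∨ v = -1

/-- CT3-CUB3: local solutions at three (compare `Y100.CT.CUB3`): with `B = 1 + 3 x` modulo `9`
take `t = 1`, `r = x` and use Hensel. -/
def S_CUB33 : Prop := ∀ (_ : Fact (Nat.Prime 3)) (I : PadicAlgCl 3) (hI : I ^ 2 + I + 1 = 0)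
  (B D : Ei), (3 : Ei) ∣ B - 1 → yy B = 0 → (3 : Ei) ∣ D - 1 → ∃ s t r, Sol hI B (3 * D) s t r

/-! ### Task 4: the other primes and the Selmer group -/

/-- CT3-RAM (compare `Y153.CTRAM.t_RAM`). -/
def S_RAM3 : Prop := ∀ (J : Type) [Fintype J] (π : J → Ei) (e : J → ZMod 3), Dt π e →
  ∀ (i₀ : QB) (hi : i₀ ^ 2 + i₀ + 1 = 0) (u : QB) (a : GK i₀ → ZMod 3), Tw hi (3 * pD π e) u a →
  ∀ (h : GK i₀ → ZMod 3) (j : J) (p : ℕ) [Fact p.Prime] (ι : QB →ₐ[ℚ] PadicAlgCl p),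
    ‖ι (ev i₀ hi (π j))‖ < 1 → ∀ R, St1 hi ι a h R →
    ∃ ε : ZMod 3, ∀ (τ : Au p) (σ : GK i₀), Cmp ι τ σ → h σ = ε * a σ

/-- CT3-UNR (compare `Y153.CTRAM.t_UNR`). -/
def S_UNR3 : Prop := ∀ (J : Type) [Fintype J] (π : J → Ei) (e : J → ZMod 3), Dt π e →
  ∀ (i₀ : QB) (hi : i₀ ^ 2 + i₀ + 1 = 0) (u : QB) (a : GK i₀ → ZMod 3), Tw hi (3 * pD π e) u a →
  ∀ (h : GK i₀ → ZMod 3) (p : ℕ) [Fact p.Prime] (ι : QB →ₐ[ℚ] PadicAlgCl p), p ≠ 3 →
    (∀ j, ¬ ‖ι (ev i₀ hi (π j))‖ < 1) → ∀ R, St1 hi ι a h R →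
    ∀ (τ : Au p) (σ : GK i₀), Cmp ι τ σ → Inert τ → a σ = 0 ∧ h σ = 0

/-- CT3-SEL: the Selmer group (compare `Y48.CT.SEL`; with `x = c v₀ lam ^ g ∏ π_j ^ (e_j v_j)` the
vector `v_j - 2 g` is in the kernel, because `3 = - lam ^ 2`). -/
def S_SEL3 : Prop := S_REC → S_LOC33 → S_RAM3 → S_UNR3 →
  ∀ (J : Type) [Fintype J] (π : J → Ei) (e : J → ZMod 3), Dt π e → Ker3 π e →
  ∀ (i₀ : QB) (hi : i₀ ^ 2 + i₀ + 1 = 0) (u : QB) (a : GK i₀ → ZMod 3), Tw hi (3 * pD π e) u a →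
  Sel1 hi a

/-- CT3-RAMC (compare `Y379.CT.t_RAMC`). -/
def S_RAMC3 : Prop := ∀ (J : Type) [Fintype J] (π : J → Ei) (e : J → ZMod 3), Dt π e →
  ∀ (i₀ : QB) (hi : i₀ ^ 2 + i₀ + 1 = 0) (u : QB) (a : GK i₀ → ZMod 3), Tw hi (3 * pD π e) u a →
  ∀ (v : J → ZMod 3) (h : GK i₀ → ZMod 3), Kc hi (∏ j, π j ^ (e j * v j).val) h →
  ∀ j : J, ∑ i, e i * cs (π j) (π i) * (v i - v j) = cs (π j) 3 * v j →
  ∀ (p : ℕ) [Fact p.Prime] (ι : QB →ₐ[ℚ] PadicAlgCl p), ‖ι (ev i₀ hi (π j))‖ < 1 →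
    ∃ R, St1 hi ι a h R

/-! ### Task 5: the converse over `ℚ` -/

/-- CT3-KLOC: the characters attached to kernel vectors are locally solvable (compare
`Y703.CT.Kloc`; the sum of the equations times `e_j` gives `yy (∏ π_j ^ (e_j v_j)) = 0`). -/
def S_KLOC3 : Prop := S_REC → S_SUP → S_FF → S_CUB → S_CUB33 → S_PT → S_RAMC3 →
  ∀ (J : Type) [Fintype J] (π : J → Ei) (e : J → ZMod 3), Dt π e →
  ∀ (i₀ : QB) (hi : i₀ ^ 2 + i₀ + 1 = 0) (u : QB) (a : GK i₀ → ZMod 3), Tw hi (3 * pD π e) u a →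
  ∀ v : J → ZMod 3, KerV3 π e v →
  ∀ h : GK i₀ → ZMod 3, Kc hi (∏ j, π j ^ (e j * v j).val) h →
  ∀ (p : ℕ) [Fact p.Prime] (ι : QB →ₐ[ℚ] PadicAlgCl p), ∃ R, St1 hi ι a h R

/-- CT3-ODD: an odd kernel vector (compare `Y737.CT.odd`, with `Option J` in place of `J`). -/
def S_ODD3 : Prop := S_REC → ∀ D : ℕ, ClsT D → ¬ NoSplit (3 * D) →
  ∀ (J : Type) [Fintype J] (π : J → Ei) (e : J → ZMod 3),
    Dt π e → ((D : Ei) = pD π e ∨ (D : Ei) = -pD π e) →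
    ∃ v : J → ZMod 3, KerV3 π e v ∧ (∀ i j, π i = star (π j) → v i = -v j) ∧ ∃ j, v j ≠ 0

/-- CT3-CONVQ (compare `Y319.CT.t_CONVQ`). -/
def S_CONVQ3 : Prop := S_REC → S_ODD3 → S_EXT → S_KLOC3 → S_SHQ → S_FINC → S_LAST →
  S_SUP → S_FF → S_CUB → S_CUB33 → S_PT → S_RAMC3 →
  ∀ D : ℕ, ClsT D → ¬ NoSplit (3 * D) → ∀ (J : Type) [Fintype J] (π : J → Ei) (e : J → ZMod 3),
    Dt π e → ((D : Ei) = pD π e ∨ (D : Ei) = -pD π e) →
    Finite (EQ (WD ((3 * D : ℕ) : ℤ))).toAffine.Point →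
    ∃ x : Sha (EQ (WD ((3 * D : ℕ) : ℤ))), 3 • x = 0 ∧ x ≠ 0

/-! ### Task 6: the criterion -/

/-- CT3-CRI: the criterion over the integers implies the criterion over the Eisenstein integers
(compare `Y405.CT.cri`, with `Option J` in place of `J`; `none` is the prime `3` and the fixed
point of the conjugation). -/
def S_CRI3 : Prop := S_REC → ∀ D : ℕ, ClsT D → NoSplit (3 * D) →
  ∀ (J : Type) [Fintype J] (π : J → Ei) (e : J → ZMod 3),
    Dt π e → ((D : Ei) = pD π e ∨ (D : Ei) = -pD π e) → Ker3 π e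

/-- CT3-EVEN: the converse. -/
def S_EVEN3 : Prop := S_REC → ∀ D : ℕ, ClsT D → ¬ NoSplit (3 * D) →
  ∀ (J : Type) [Fintype J] (π : J → Ei) (e : J → ZMod 3),
    Dt π e → ((D : Ei) = pD π e ∨ (D : Ei) = -pD π e) → ¬ Ker3 π e

/-- CT3-CNT: the number of the primes. -/
def S_CNT3 : Prop := ∀ D : ℕ, ClsT D → ∀ (J : Type) [Fintype J] (π : J → Ei) (e : J → ZMod 3),
  Dt π e → ((D : Ei) = pD π e ∨ (D : Ei) = -pD π e) → Fintype.card J = 2 * D.primeFactors.card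

/-! ### Task 7: the exact proportion (independent of all the rest) -/

/-- CT3-DEN: the exact proportion of the good `D` (compare the whole project
`Pool/Agent/Y703/CX/Stm.lean`: the vertex `3` is an additional small prime without an equation, all
the other primes are `1` modulo `3`; there are no bilinear sums with primes `2` modulo `3`). -/
def S_DEN3 : Prop := Filter.Tendsto
  (fun X : ℕ => (((Finset.Icc 1 X).filter fun D => Squarefree D ∧ ClsT D ∧ NoSplit (3 * D)).card : ℝ) /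
    (((Finset.Icc 1 X).filter fun D => Squarefree D ∧ ClsT D).card : ℝ)) Filter.atTop
    (nhds Pool.Agent.Y703.CX.c3)

end Pool.Agent.E8helper20.CT3
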