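import Pool.Agent.E8helper20.CT3.AB
import Pool.Agent.Y703.CT.T1c
import Pool.Agent.E8helper2.CT3.Sup
import Pool.Agent.E8helper2.CT3.LQ3
import Pool.Agent.E8helper47.CT3.Tam
import Pool.Agent.E8helper47.CT3.Cnt

/-!
# The valuation of the central value at level nine
-/

set_option autoImplicit false
set_option linter.unusedSectionVars false

open scoped Classical PeriodPair

namespace Pool.Agent.E8helper20.CT3.Va

open Pool.Agent.Y700 (psi Omega SingRed E0 tam S_E0)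
open Pool.Agent.Y692.QS (Ei w nr toC)
open Pool.Agent.Y715.T.Rec (cs)
open Pool.Agent.Y715.T.RecG (Pq)
open Pool.Agent.Y696 (Cur eis om)
open Pool.Agent.Y715.T.Rs (eq0)
open Pool.Agent.W192.HK (sp)
open Pool.Agent.Y703.CT
open Pool.Agent.Y715.T.Three (lam lam_lt lam_ne lam_ne' sq_three v_two)
open Pool.Agent.Y715.T.Cg (Cg Zt zt_of_prim z_pow)
open Pool.Agent.Y715.Two (v_nat v_int v_unit v_mul_le_of)
open Pool.Agent.Y715.T.Om (Om Om_pos exists_lat)
open Pool.Agent.E8helper20.CT3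
open Pool.Agent.E8helper20.CT3.Cmb (DD DD_ne_iff)

variable {J : Type} {π : J → Ei} {e : J → ZMod 3}

/-- **The valuation of the central value.** -/
theorem an_val [Fintype J] [Nonempty J] (h : Dt π e) :
    ∃ F : ℂ → ℂ, IsHL3 π e F ∧
      ∀ (Γ : Type) [LinearOrderedCommGroupWithZero Γ] (v : Valuation ℂ Γ), v 3 < 1 →
        ∀ (L : PeriodPair) (Ω : ℂ), Cur L Ω → ∃ s : ℂ,
          Cg v s (DD (am π e) (fun i => yy (π i)) Finset.univ) ∧
            v ((starRingEnd ℂ) (F 1) / Ω) ^ 3 * v lam ^ 5 =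
              v lam ^ (3 * Fintype.card J) * v s ^ 3 := by
  obtain ⟨F, hF, hval⟩ := AB.an1b h
  refine ⟨F, hF, ?_⟩
  intro Γ _ v hv L Ω hC
  have : Fintype (eis ⧸ (sp 9 : Ideal eis)) :=
    @Fintype.ofFinite _ (fin_quot _ Hk.nine_ne)
  obtain ⟨ρ, hρ, hval⟩ := hval L Ω hC
  have hz : Zt v (toC w) := zt_of_prim hv (k := 1) le_rfl (by
    rw [pow_one]
    exact Pool.Agent.Y715.T.Fin.prim_w)
  have hw : toC w = om := by
    have := toC_eq' 0 1
    have e1 : (w : Ei) = ⟨0, 1⟩ := rfl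
    rw [e1, this]
    push_cast
    ring
  have hzl : v (1 - toC w) = v lam := by
    rw [hw]
    exact Ana.om_val hv
  have hfy := fy (v := v) hv h
  have h3π : ∀ i, eq0 (π i) - 1 ∈ (sp 3 : Ideal eis) := by
    intro i
    exact Pool.Agent.Y715.T.Ex.three_mem.2 (h.pq i).three
  have ht : ∀ i, ∃ n : ℕ, (Ch.th (eq0 (π i)))⁻¹ = toC w ^ n ∧ (n : ZMod 3) = -yy (π i) := by
    intro i
    refine ⟨(-yy (π i)).val, ?_, ZMod.natCast_zmod_val _⟩
    rw [Ch.th_prim (h3π i), RingEquiv.symm_apply_apply]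
    apply inv_eq_of_mul_eq_one_right
    rw [← toC_w_add, add_neg_cancel, ZMod.val_zero, pow_zero]
  have hcg := An.sT_cg hv hC fin_quot hfy hz h3π ht Finset.univ
  refine ⟨_, hcg, ?_⟩
  have hR0 := Xi.RR0_ne hC
  have hz1 := hz.ne
  have e1 : An.SQ L Ω (fun k => eq0 (π k)) (Xc π e) Finset.univ =
      (6 * Xi.RR L Ω (Ω / 9) * (1 - toC w) ^ Fintype.card J) *
        An.sT L Ω (fun i => eq0 (π i)) (Xc π e) (toC w) Finset.univ := by
    unfold An.sT
    rw [Finset.card_univ, mul_div_cancel₀]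
    exact mul_ne_zero (mul_ne_zero (by norm_num) hR0) (pow_ne_zero _ hz1)
  have hc : v (∏ j, toC (π j)) = 1 := by
    rw [map_prod]
    refine Finset.prod_eq_one fun i _ => ?_
    apply v_unit
    exact (hfy.lin i).trans_lt hv
  have h3l : v 3 = v lam ^ 2 := by rw [pow_two, sq_three]
  have h54 : v 54 = v lam ^ 6 := by
    have : (54 : ℂ) = 2 * 3 ^ 3 := by norm_num
    rw [this, map_mul, v_two hv, one_mul, map_pow, h3l, ← pow_mul]
  have h6 : v 6 = v lam ^ 2 := by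
    have : (6 : ℂ) = 2 * 3 := by norm_num
    rw [this, map_mul, v_two hv, one_mul, h3l]
  have hR := Xi.v_RR0 hC hv
  rw [hval, e1]
  simp only [map_mul, map_inv₀, map_pow, hc, z_pow (by norm_num) hρ, hzl, h54, h6, inv_one,
    mul_one]
  have hl : v lam ≠ 0 := lam_ne
  simp only [mul_pow, hR, inv_pow, ← pow_mul]
  have e2 : (v lam ^ (6 * 3))⁻¹ * (v lam ^ (2 * 3) * v lam ^ 7 * v lam ^ (Fintype.card J * 3) *
      v (An.sT L Ω (fun i => eq0 (π i)) (Xc π e) (toC w) Finset.univ) ^ 3) * v lam ^ 5 =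
      ((v lam ^ 18)⁻¹ * v lam ^ 18) * (v lam ^ (Fintype.card J * 3) *
      v (An.sT L Ω (fun i => eq0 (π i)) (Xc π e) (toC w) Finset.univ) ^ 3) := by
    have e3 : v lam ^ 18 = v lam ^ (2 * 3) * v lam ^ 7 * v lam ^ 5 := by
      rw [← pow_add, ← pow_add]
    conv_rhs => rw [show (v lam ^ 18)⁻¹ * v lam ^ 18 = (v lam ^ (6 * 3))⁻¹ * (v lam ^ (2 * 3) * v lam ^ 7 * v lam ^ 5) by rw [← e3]]
    simp only [mul_assoc, mul_comm, mul_left_comm]
  rw [e2, inv_mul_cancel₀ (pow_ne_zero _ hl), one_mul, mul_comm (Fintype.card J) 3]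

/-- the determinant and the kernel -/
theorem DD_iff [Fintype J] (h : Dt π e) :
    DD (am π (fun j => -e j)) (fun i => yy (π i)) Finset.univ ≠ 0 ↔ Ker3 π e := by
  have hrec := Pool.Agent.Y350.CT.rec
  have hsup := Pool.Agent.E8helper2.CT3.t_SUP
  rw [DD_ne_iff]
  have key : ∀ v : J → ZMod 3, (∀ i, ∑ j, am π (fun j => -e j) i j * (v i - v j) +
      yy (π i) * v i = 0) ↔ KerV3 π e v := by
    intro v
    refine forall_congr' fun i => ?_
    have h1 : ∑ j, am π (fun j => -e j) i j * (v i - v j) =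
        -∑ j, e j * cs (π i) (π j) * (v j - v i) := by
      rw [← Finset.sum_neg_distrib]
      refine Finset.sum_congr rfl fun j _ => ?_
      by_cases hij : i = j
      · rw [hij, sub_self, mul_zero, mul_zero, neg_zero]
      · unfold am
        rw [hrec (π i) (π j) (h.pq i) (h.pq j) (h.nd i j hij)]
        ring
    rw [h1, hsup (π i) (h.pq i)]
    constructor
    · intro h2
      linear_combination -h2
    · intro h2
      linear_combination -h2
  unfold Ker3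
  refine forall_congr' fun v => ?_
  rw [key v]

/-- the value up to the real period `Om` -/
lemma val_real [Fintype J] {F : ℂ → ℂ} {d : ZMod 3}
    (hval : ∀ (Γ : Type) [LinearOrderedCommGroupWithZero Γ] (v : Valuation ℂ Γ), v 3 < 1 →
        ∀ (L : PeriodPair) (Ω : ℂ), Cur L Ω → ∃ s : ℂ, Cg v s d ∧
            v ((starRingEnd ℂ) (F 1) / Ω) ^ 3 * v lam ^ 5 =
              v lam ^ (3 * Fintype.card J) * v s ^ 3)
    {Γ : Type} [LinearOrderedCommGroupWithZero Γ] {v : Valuation ℂ Γ}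
    (hv : v 3 < 1) : ∃ g : Γ, g ≤ 1 ∧ (d ≠ 0 → g = 1) ∧ (d = 0 → g < 1) ∧
      v (F 1 / Om) ^ 3 * v lam ^ 5 = v lam ^ (3 * Fintype.card J) * g ^ 3 := by
  obtain ⟨L, ξ, hξ, hL⟩ := exists_lat
  have hv' : (v.comap (starRingEnd ℂ)) 3 < 1 := by
    rw [Valuation.comap_apply, map_ofNat]
    exact hv
  obtain ⟨s, hs, h1⟩ := hval Γ (v.comap (starRingEnd ℂ)) hv' L _ hL
  refine ⟨(v.comap (starRingEnd ℂ)) s, hs.le, fun hd => hs.eq_one hv' hd, fun hd => ?_, ?_⟩
  · rw [hd] at hs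
    exact hs.lt_one
  · have hξv : v ((starRingEnd ℂ) ξ) = 1 := by
      refine z_pow (k := 12) (by norm_num) ?_
      rw [← map_pow, hξ, map_one]
    have h2 : (v.comap (starRingEnd ℂ)) lam = v lam := by
      rw [Valuation.comap_apply, conj_lam, v.map_neg]
    rw [h2] at h1
    rw [← h1]
    congr 2
    rw [Valuation.comap_apply, map_div₀ (starRingEnd ℂ), Complex.conj_conj,
      map_mul (starRingEnd ℂ), Complex.conj_ofReal, map_div₀, map_div₀, map_mul, hξv, mul_one]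

/-- the normalized value -/
theorem value {D : ℕ} (hC : ClsT D) [Fintype J] [Nonempty J] (hD : Dt π e)
    (hDp : (D : Ei) = pD π e ∨ (D : Ei) = -pD π e) :
    ∃ f, IsL (WD ((3 * D : ℕ) : ℤ)) f ∧ ∃ u : ℂ,
      f 1 = u * (((Omega (WD ((3 * D : ℕ) : ℤ)) : ℝ) : ℂ) *
        (tamProd (WD ((3 * D : ℕ) : ℤ)) : ℂ) / 9) ∧
      ∀ (Γ : Type) [LinearOrderedCommGroupWithZero Γ] (v : Valuation ℂ Γ), v 3 < 1 →
        v u ≤ 1 ∧ (Ker3 π e → v u = 1) ∧ (¬ Ker3 π e → v u < 1) := by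
  have hD1 := hC.1
  obtain ⟨F, hF, hval⟩ := an_val hD.neg
  refine ⟨F, Pool.Agent.E8helper2.CT3.t_LQ3 Pool.Agent.Y350.CT.rec Pool.Agent.E8helper2.CT3.t_SUP
    D hC J π e hD hDp F hF, ?_⟩
  set d : ZMod 3 := DD (am π (fun j => -e j)) (fun i => yy (π i)) Finset.univ with hd
  have hdk : d ≠ 0 ↔ Ker3 π e := DD_iff hD
  -- periods and Tamagawa numbers
  obtain ⟨m, hm3, hm⟩ := Pool.Agent.E8helper47.CT3.t_TAM3 Pool.Agent.Y809.BSD14.t_E0 D hC
  have hper := Pool.Agent.Y333.CT.per (3 * D) (by omega)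
  have hcnt := Pool.Agent.E8helper47.CT3.cnt3 D hC J π e hD hDp
  set R : ℝ := ((3 * D : ℕ) : ℝ) ^ (1 / 3 : ℝ) with hR
  have hDpos : (0 : ℝ) < ((3 * D : ℕ) : ℝ) := by
    have : 0 < 3 * D := by omega
    exact_mod_cast this
  have hR3 : R ^ 3 = ((3 * D : ℕ) : ℝ) := by
    rw [hR, ← Real.rpow_natCast, ← Real.rpow_mul hDpos.le]
    norm_num
  have hRpos : 0 < R := Real.rpow_pos_of_pos hDpos _
  have hm0 : m ≠ 0 := by
    rintro rfl
    exact hm3 (dvd_zero 3)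
  have hOm := Om_pos
  have hper' : Omega (WD ((3 * D : ℕ) : ℤ)) = √3 * Om / R := hper
  set y : ℂ := ((Omega (WD ((3 * D : ℕ) : ℤ)) : ℝ) : ℂ) *
    (tamProd (WD ((3 * D : ℕ) : ℤ)) : ℂ) / 9 with hy
  have hy1 : y = ((√3 : ℝ) : ℂ) * (Om : ℂ) / (R : ℂ) *
      (3 ^ (D.primeFactors.card + 1) * m) / 9 := by
    rw [hy, hper', hm]
    push_cast
    ring
  have hs3 : ((√3 : ℝ) : ℂ) ≠ 0 := by
    rw [Ne, Complex.ofReal_eq_zero]
    positivity
  have hOmC : (Om : ℂ) ≠ 0 := by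
    rw [Ne, Complex.ofReal_eq_zero]
    exact hOm.ne'
  have hRC : (R : ℂ) ≠ 0 := by
    rw [Ne, Complex.ofReal_eq_zero]
    exact hRpos.ne'
  have hmC : (m : ℂ) ≠ 0 := by exact_mod_cast hm0
  have hy0 : y ≠ 0 := by
    rw [hy1]
    exact div_ne_zero (mul_ne_zero (div_ne_zero (mul_ne_zero hs3 hOmC) hRC)
      (mul_ne_zero (pow_ne_zero _ three_ne_zero) hmC)) (by norm_num)
  refine ⟨F 1 / y, by field_simp, ?_⟩
  intro Γ _ v hv
  obtain ⟨g, hg1, hg2, hg3, hg⟩ := val_real hval hv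
  have h3l : v 3 = v lam ^ 2 := by rw [pow_two, sq_three]
  have hvs : v ((√3 : ℝ) : ℂ) = v lam := by
    have h1 : ((√3 : ℝ) : ℂ) ^ 2 = 3 := by
      rw [← Complex.ofReal_pow, Real.sq_sqrt (by norm_num)]
      norm_num
    have h2 : v ((√3 : ℝ) : ℂ) ^ 2 = v lam ^ 2 := by
      rw [← map_pow, h1, h3l]
    exact (pow_left_inj₀ zero_le zero_le two_ne_zero).1 h2
  have hD3 : ¬ 3 ∣ D := by
    intro h3
    have := (hC.2 3 Nat.prime_three h3).1
    omega
  have hvR : v (R : ℂ) ^ 3 = v lam ^ 2 := by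
    have h1 : (R : ℂ) ^ 3 = 3 * D := by
      rw [← Complex.ofReal_pow, hR3]
      push_cast
      ring
    rw [← map_pow, h1, map_mul, v_natp hv hD3, mul_one, h3l]
  have hvm := v_natp hv hm3
  have hl : v lam ≠ 0 := lam_ne
  have hOv : v (Om : ℂ) ≠ 0 := (Valuation.ne_zero_iff _).2 hOmC
  have hRv : v (R : ℂ) ≠ 0 := (Valuation.ne_zero_iff _).2 hRC
  have key : v (F 1 / y) = g := by
    have h1 : v (F 1 / y) = v (F 1 / Om) * (v (R : ℂ) * v 9 /
        (v lam * (v 3) ^ (D.primeFactors.card + 1))) := by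
      rw [hy1]
      simp only [map_div₀, map_mul, map_pow, hvs, hvm, mul_one]
      field_simp
    have h2 : v (F 1 / Om) ^ 3 = v lam ^ (3 * Fintype.card J) * g ^ 3 / v lam ^ 5 := by
      rw [eq_div_iff (pow_ne_zero _ hl)]
      exact hg
    have h3 : v (F 1 / y) ^ 3 = g ^ 3 := by
      have h9 : v 9 = v lam ^ 4 := Pool.Agent.Y715.T.Three.v_nine
      rw [h1, mul_pow, h2, div_pow, mul_pow, mul_pow, hvR, h9, h3l, hcnt]
      have e1 : ((v lam ^ 2) ^ (D.primeFactors.card + 1)) ^ 3 =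
          v lam ^ (3 * (2 * D.primeFactors.card)) * v lam ^ 6 := by
        rw [← pow_mul, ← pow_mul, ← pow_add]
        congr 1
        ring
      have e2 : (v lam ^ 4) ^ 3 = v lam ^ 12 := by rw [← pow_mul]
      rw [e1, e2]
      set P := v lam ^ (3 * (2 * D.primeFactors.card))
      have hP : P ≠ 0 := pow_ne_zero _ hl
      have e3 : v lam ^ 2 * v lam ^ 12 = v lam ^ 5 * (v lam ^ 3 * v lam ^ 6) := by
        rw [← pow_add, ← pow_add, ← pow_add]
      rw [e3]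
      field_simp
    exact (pow_left_inj₀ zero_le zero_le three_ne_zero).1 h3
  rw [key]
  refine ⟨hg1, fun hk => hg2 (hdk.2 hk), fun hk => hg3 ?_⟩
  by_contra hcon
  exact hk (hdk.1 hcon)

end Pool.Agent.E8helper20.CT3.Va
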