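import Pool.Agent.E8helper20.CT3.Add

/-!
# The limits of the sums of the Eisenstein series over the multiples of a point of order three
-/

set_option autoImplicit false

open Filter
open scoped Topology PeriodPair

namespace Pool.Agent.E8helper20.CT3.Xi

open H667R3 Pool.Agent.W192.HK Pool.Agent.TH936.CM Pool.Agent.TH936.PU
open Pool.Agent.Y715.T.Lat Pool.Agent.Y715.T.Three Pool.Agent.Y696

variable {L : PeriodPair} {Ω : ℂ}

/-- generic points -/
def Gd (L : PeriodPair) (z : ℂ) : Prop := 6 * lam * z ∉ L.lattice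

lemma Gd.neg {z : ℂ} (h : Gd L z) : Gd L (-z) := by
  unfold Gd at h ⊢
  rwa [mul_neg, neg_mem_iff]

lemma Gd.add {z w : ℂ} (h : Gd L z) (hw : 6 * lam * w ∈ L.lattice) : Gd L (z + w) := by
  unfold Gd at h ⊢
  intro h1
  apply h
  have h2 := sub_mem h1 hw
  have e : 6 * lam * (z + w) - 6 * lam * w = 6 * lam * z := by ring
  rwa [e] at h2

lemma Gd.sub {z w : ℂ} (h : Gd L z) (hw : 6 * lam * w ∈ L.lattice) : Gd L (z - w) := by
  rw [sub_eq_add_neg]
  refine h.add ?_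
  rwa [mul_neg, neg_mem_iff]

section

variable (hC : Cur L Ω)

include hC

lemma lam_mem {z : ℂ} (h : z ∈ L.lattice) : lam * z ∈ L.lattice := by
  have := hC.lat.mul la z h
  rwa [la_coe] at this

lemma om_mem : Ω ∈ L.lattice := (hC.lat.mem Ω).2 ⟨1, by push_cast; ring⟩

lemma nat_mem (n : ℕ) {z : ℂ} (h : z ∈ L.lattice) : (n : ℂ) * z ∈ L.lattice := by
  have h1 := nsmul_mem h n
  rwa [nsmul_eq_mul] at h1

lemma six_tau : 6 * lam * (Ω / 3) ∈ L.lattice := by
  have h := nat_mem hC 2 (lam_mem hC (om_mem hC))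
  have e : 6 * lam * (Ω / 3) = ((2 : ℕ) : ℂ) * (lam * Ω) := by push_cast; ring
  rwa [e]

lemma six_t : 6 * lam * (lam * (Ω / 3)) ∈ L.lattice := by
  have h := lam_mem hC (six_tau hC)
  have e : 6 * lam * (lam * (Ω / 3)) = lam * (6 * lam * (Ω / 3)) := by ring
  rwa [e]

lemma Gd.nm {z : ℂ} (h : Gd L z) : z ∉ L.lattice := by
  intro h1
  apply h
  have h2 := nat_mem hC 6 (lam_mem hC h1)
  have e : 6 * lam * z = ((6 : ℕ) : ℂ) * (lam * z) := by push_cast; ring
  rwa [e]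

lemma Gd.nm2 {z : ℂ} (h : Gd L z) : 2 * z ∉ L.lattice := by
  intro h1
  apply h
  have h2 := nat_mem hC 3 (lam_mem hC h1)
  have e : 6 * lam * z = ((3 : ℕ) : ℂ) * (lam * (2 * z)) := by push_cast; ring
  rwa [e]

lemma Gd.nmla {z : ℂ} (h : Gd L z) : lam * z ∉ L.lattice := by
  intro h1
  apply h
  have h2 := nat_mem hC 6 h1
  have e : 6 * lam * z = ((6 : ℕ) : ℂ) * (lam * z) := by push_cast; ring
  rwa [e]

lemma Gd.nmla2 {z : ℂ} (h : Gd L z) : 2 * (lam * z) ∉ L.lattice := by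
  intro h1
  apply h
  have h2 := nat_mem hC 3 h1
  have e : 6 * lam * z = ((3 : ℕ) : ℂ) * (2 * (lam * z)) := by push_cast; ring
  rwa [e]

lemma Gd.nm3 {z : ℂ} (h : Gd L z) : lam * (lam * z) ∉ L.lattice := by
  intro h1
  apply h
  have h2 := nat_mem hC 2 (lam_mem hC h1)
  have e : 6 * lam * z = -(((2 : ℕ) : ℂ) * (lam * (lam * (lam * z)))) := by
    push_cast
    linear_combination (2 * lam * z) * lam_sq
  rw [e, neg_mem_iff]
  exact h2

lemma tp_nm : lam * (Ω / 3) ∉ L.lattice := by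
  rw [hC.mem_third (r := la) (by rw [la_coe]; ring)]
  unfold la
  rw [mem_three]
  norm_num

lemma tp_nm2 : 2 * (lam * (Ω / 3)) ∉ L.lattice := by
  rw [hC.mem_third (r := 2 * la) (by push_cast; rw [la_coe]; show 2 * (lam * (Ω / 3)) = Ω * (2 * lam) / 3; ring)]
  have e : (2 : eis) * la = ez 2 4 := by
    unfold la ez
    push_cast
    ring
  rw [e, mem_three]
  norm_num

lemma tau2 : 2 * (-(Ω / 3)) ∉ L.lattice := by
  rw [mul_neg, neg_mem_iff]
  exact hC.third_two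

/-- the value of `℘'` at `lam Ω / 3` -/
lemma eps : ℘'[L] (lam * (Ω / 3)) = lam * ℘'[L] (Ω / 3) / 3 := by
  have h := dwp_la hC hC.third_two (tp_nm hC)
  have h1 := hC.x0
  have h2 : 9 * ℘[L] (Ω / 3) ^ 3 * ℘'[L] (lam * (Ω / 3)) =
    -9 * ℘'[L] (lam * (Ω / 3)) := by rw [h1]; ring
  rw [h2, h1] at h
  linear_combination (-1 / 9 : ℂ) * h

lemma Gd.x_ne {z : ℂ} (h : Gd L z) : ℘[L] z ≠ 0 := by
  have h1 := wp_sub_ne (h.nm hC) (tp_nm hC) ((h.add (six_t hC)).nm hC) ((h.sub (six_t hC)).nm hC)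
  rwa [wp_la_third hC, sub_zero] at h1

/-! ### the three second differences -/

lemma Dd0 (z : ℂ) : Dd L z (lam * (Ω / 3)) = ℘'[L] z / ℘[L] z := by
  unfold Dd
  rw [wp_la_third hC, sub_zero]

lemma Dd1 {z : ℂ} (h : Gd L z) : Dd L (z + lam * (Ω / 3)) (lam * (Ω / 3)) =
    -(℘'[L] z - lam * ℘'[L] (Ω / 3)) / (2 * ℘[L] z) := by
  have hz := h.nm hC
  have h1 : lam * (Ω / 3) + z ∉ L.lattice := by
    rw [add_comm]
    exact (h.add (six_t hC)).nm hC
  have h2 : lam * (Ω / 3) - z ∉ L.lattice := by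
    rw [← neg_sub, neg_mem_iff]
    exact (h.sub (six_t hC)).nm hC
  have h3 := add_zero' hC (tp_nm2 hC) (wp_la_third hC) hz h1 h2
  have hx := h.x_ne hC
  have hx' := (h.add (six_t hC)).x_ne hC
  rw [Dd0 hC, add_comm z]
  rw [add_comm z] at hx'
  rw [eps hC] at h3
  rw [div_eq_div_iff hx' (mul_ne_zero two_ne_zero hx)]
  linear_combination h3

lemma Dd2 {z : ℂ} (h : Gd L z) : Dd L (z - lam * (Ω / 3)) (lam * (Ω / 3)) =
    -(℘'[L] z + lam * ℘'[L] (Ω / 3)) / (2 * ℘[L] z) := by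
  have hz := h.nm hC
  have h1 : -(lam * (Ω / 3)) + z ∉ L.lattice := by
    have e : -(lam * (Ω / 3)) + z = z - lam * (Ω / 3) := by ring
    rw [e]
    exact (h.sub (six_t hC)).nm hC
  have h2 : -(lam * (Ω / 3)) - z ∉ L.lattice := by
    have e : -(lam * (Ω / 3)) - z = -(z + lam * (Ω / 3)) := by ring
    rw [e, neg_mem_iff]
    exact (h.add (six_t hC)).nm hC
  have h4 : 2 * -(lam * (Ω / 3)) ∉ L.lattice := by
    rw [mul_neg, neg_mem_iff]
    exact tp_nm2 hC
  have h3 := add_zero' hC h4 (by rw [L.weierstrassP_neg]; exact wp_la_third hC) hz h1 h2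
  have hx := h.x_ne hC
  have hx' := (h.sub (six_t hC)).x_ne hC
  have e : z - lam * (Ω / 3) = -(lam * (Ω / 3)) + z := by ring
  rw [Dd0 hC, e]
  rw [e] at hx'
  rw [L.derivWeierstrassP_neg, eps hC] at h3
  rw [div_eq_div_iff hx' (mul_ne_zero two_ne_zero hx)]
  linear_combination h3

end

/-- the first limit function -/
noncomputable def xi (L : PeriodPair) (Ω z : ℂ) : ℂ :=
  -(℘'[L] z + ℘'[L] (Ω / 3)) / (2 * ℘[L] z)

section

variable (hC : Cur L Ω)

include hC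

/-- the limit of the sum over the multiples of `lam Ω / 3` -/
theorem lim_xi {z : ℂ} (h : Gd L z) :
    Tendsto (fun δ : ℝ => EE eis Ω δ z + om ^ 2 * EE eis Ω δ (z + lam * (Ω / 3)) +
      om * EE eis Ω δ (z - lam * (Ω / 3))) (𝓝[>] 0) (𝓝 (xi L Ω z)) := by
  set t := lam * (Ω / 3) with ht
  have ht0 : t ∉ L.lattice := tp_nm hC
  have hp := h.add (six_t hC)
  have hm := h.sub (six_t hC)
  rw [← ht] at hp hm
  have h3t : 3 * t ∈ L.lattice := by
    have := lam_mem hC (om_mem hC)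
    have e : 3 * t = lam * Ω := by rw [ht]; ring
    rwa [e]
  have k1 : z + t + t ∉ L.lattice := (hp.add (six_t hC)).nm hC
  have k2 : z + t - t ∉ L.lattice := (hp.sub (six_t hC)).nm hC
  have k3 : z - t + t ∉ L.lattice := (hm.add (six_t hC)).nm hC
  have k4 : z - t - t ∉ L.lattice := (hm.sub (six_t hC)).nm hC
  have l0 := lim_Dd hC.lat (h.nm hC) ht0 (hp.nm hC) (hm.nm hC)
  have l1 := lim_Dd hC.lat (hp.nm hC) ht0 k1 k2
  have l2 := lim_Dd hC.lat (hm.nm hC) ht0 k3 k4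
  rw [ht, Dd0 hC, ← ht] at l0
  rw [ht, Dd1 hC h, ← ht] at l1
  rw [ht, Dd2 hC h, ← ht] at l2
  have l := ((l0.add (l1.const_mul (om ^ 2))).add (l2.const_mul om)).const_mul (-(1 / 3))
  have hs := om_sq
  have hx := h.x_ne hC
  have elam : lam = om - om ^ 2 := by
    rw [← la_coe, la_eq]
    push_cast
    rw [omr_coe]
  have e1 : -(1 / 3) * (℘'[L] z / ℘[L] z +
      om ^ 2 * (-(℘'[L] z - lam * ℘'[L] (Ω / 3)) / (2 * ℘[L] z)) +
      om * (-(℘'[L] z + lam * ℘'[L] (Ω / 3)) / (2 * ℘[L] z))) = xi L Ω z := by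
    unfold xi
    have h4 := lam_sq
    have e0 : -(1 / 3) * (℘'[L] z / ℘[L] z +
        om ^ 2 * (-(℘'[L] z - lam * ℘'[L] (Ω / 3)) / (2 * ℘[L] z)) +
        om * (-(℘'[L] z + lam * ℘'[L] (Ω / 3)) / (2 * ℘[L] z))) =
        (-(1 / 3) * (2 * ℘'[L] z - om ^ 2 * (℘'[L] z - lam * ℘'[L] (Ω / 3)) -
          om * (℘'[L] z + lam * ℘'[L] (Ω / 3)))) / (2 * ℘[L] z) := by
      field_simp
      ring
    rw [e0]
    congr 1
    linear_combination (℘'[L] z / 3) * hs + (℘'[L] (Ω / 3) / 3) * h4 -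
      (lam * ℘'[L] (Ω / 3) / 3) * elam
  rw [e1] at l
  refine l.congr fun δ => ?_
  have p1 : EE eis Ω δ (z + t + t) = EE eis Ω δ (z - t) := by
    apply EE_per hC.lat
    have e : z + t + t - (z - t) = 3 * t := by ring
    rw [e]
    exact h3t
  have p2 : EE eis Ω δ (z - t - t) = EE eis Ω δ (z + t) := by
    apply EE_per hC.lat
    have e : z - t - t - (z + t) = -(3 * t) := by ring
    rw [e, neg_mem_iff]
    exact h3t
  have p3 : z + t - t = z := by ring
  have p4 : z - t + t = z := by ring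
  rw [p1, p2, p3, p4]
  linear_combination (-(1 / 3) * EE eis Ω δ z - (1 / 3) * EE eis Ω δ (z + t) -
    (1 / 3) * EE eis Ω δ (z - t)) * hs

end

end Pool.Agent.E8helper20.CT3.Xi
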